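import Pool.Agent.Run7.h289.XK.DENS

/-!
# Project XK: the joint law for finitely many multipliers
-/

set_option autoImplicit false

open Filter Topology Finset

namespace Pool.Agent.Run7.h289.XK

open Pool.Agent.Run7.h289.D18
open Pool.Agent.Run7.h238.J (tw)
open Run7.h843.L (gk gk_mem)
open Run7.h555.XK (Cl)
open Pool.Agent.N969.P15 (Qc)

section

variable {M : ℕ} {a : Fin M → ℕ}

/-- the joint law for a union of classes, in total variation -/
theorem lawP (ha : Function.Injective a) (hsa : ∀ k, Squarefree (a k)) (ha4 : ∀ k, a k % 4 = 1)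
    (m : ℕ) (hm : 8 ∣ m) (hm0 : 0 < m) (P : ℕ → Prop) (hP : ∀ n, P n ↔ P (n % m))
    (h4 : ∀ n, P n → n % 4 = 3) (b : ℕ) (hb : P b) (hc : b.Coprime m) (A : Set (Fin M → ℕ)) :
    Prp (fun n => Squarefree n ∧ P n) (fun n => ∃ r ∈ A, ∀ i, Nf (tw (a i) n) = 2 ^ (r i + 1))
      (∑' r : A, ∏ i, gk (r.1 i)) := by
  have hex : ∃ n, Squarefree n ∧ P n := by
    obtain ⟨α, hα, h1⟩ := low_nm m hm hm0 P hP b hb hc
    obtain ⟨X, hX, hX1⟩ := (h1.and (eventually_ge_atTop 1)).exists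
    have h2 : (0 : ℝ) < nm (fun n => Squarefree n ∧ P n) (fun _ => True) X :=
      lt_of_lt_of_le (mul_pos hα (by exact_mod_cast hX1)) hX
    have h3 : 0 < nm (fun n => Squarefree n ∧ P n) (fun _ => True) X := by exact_mod_cast h2
    obtain ⟨⟨n, -, hn, -⟩⟩ := (Nat.card_pos_iff.1 h3).1
    exact ⟨n, hn⟩
  exact prp_set (p := fun r : Fin M → ℕ => ∏ i, gk (r i)) (fun n _ r s h1 h2 => funext fun i => by
    have h3 := (h1 i).symm.trans (h2 i)
    have h4 := Nat.pow_right_injective le_rfl h3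
    omega) (fun r => prp_J r a ha hsa ha4 m hm hm0 P hP h4 b hb hc)
    (fun r => prod_nonneg fun i _ => (gk_mem (r i)).1) (hasSum_prod_gk M) hex A

theorem tw4 {a n : ℕ} (ha : a % 4 = 1) (hn : n % 4 = 3) : tw a n % 4 = 3 := by
  have h := tw8 (a := a) (n := n) (by omega)
  have h1 : a * n % 4 = 3 := by
    rw [Nat.mul_mod, ha, hn]
  omega

theorem Nf_pow {m : ℕ} (hm : Squarefree m) (hm4 : m % 4 = 3) : ∃ k : ℕ, Nf m = 2 ^ (k + 1) := by
  obtain ⟨k, hk⟩ := card_pow hm hm4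
  exact ⟨k, by rw [← card_T2_Nf hm, hk]⟩

/-- **the joint law of the criterion for finitely many multipliers** -/
theorem patP (ha : Function.Injective a) (hsa : ∀ k, Squarefree (a k)) (ha4 : ∀ k, a k % 4 = 1)
    (m : ℕ) (hm : 8 ∣ m) (hm0 : 0 < m) (P : ℕ → Prop) (hP : ∀ n, P n ↔ P (n % m))
    (h4 : ∀ n, P n → n % 4 = 3) (b : ℕ) (hb : P b) (hc : b.Coprime m) (S : Finset (Fin M)) :
    Prp (fun n => Squarefree n ∧ P n) (fun n => ∀ i, Qc (tw (a i) n) ↔ i ∈ S)
      ((∏' i : ℕ, (1 - (1 / 2 : ℝ) ^ (i + 1))) ^ S.card *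
        (1 - ∏' i : ℕ, (1 - (1 / 2 : ℝ) ^ (i + 1))) ^ (M - S.card)) := by
  have h := lawP ha hsa ha4 m hm hm0 P hP h4 b hb hc {r : Fin M → ℕ | ∀ i, r i = 0 ↔ i ∈ S}
  rw [tsum_pat, gk0] at h
  refine Prp.congr (fun n => Iff.rfl) (fun n hn => ?_) h
  have hq : ∀ i, ∃ k : ℕ, Nf (tw (a i) n) = 2 ^ (k + 1) := fun i =>
    Nf_pow (tw_sqf (hsa i) hn.1) (tw4 (ha4 i) (h4 n hn.2))
  choose k hk using hq
  have key : ∀ i, Qc (tw (a i) n) ↔ k i = 0 := by
    intro i
    have h1 : 1 < tw (a i) n := by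
      have := tw4 (ha4 i) (h4 n hn.2)
      omega
    rw [← Nf_two h1, hk i]
    constructor
    · intro h2
      have h3 : 2 ^ (k i + 1) = 2 ^ 1 := h2
      have := Nat.pow_right_injective le_rfl h3
      omega
    · intro h2
      rw [h2]
      rfl
  constructor
  · rintro ⟨r, hr, h1⟩ i
    have h2 := (hk i).symm.trans (h1 i)
    have h3 := Nat.pow_right_injective le_rfl h2
    rw [key, ← hr i]
    omega
  · intro h1
    refine ⟨k, fun i => ?_, hk⟩
    rw [← key, h1 i]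

end

/-- the multipliers which keep the class -/
structure Mult (a : ℕ) : Prop where
  sqf : Squarefree a
  mod12 : a % 12 = 1
  mod5 : a % 5 = 1 ∨ a % 5 = 4

theorem cl_tw {a n : ℕ} (ha : Mult a) (hn : Cl n) : Cl (tw a n) := by
  refine ⟨tw_sqf ha.sqf hn.1, ?_⟩
  have h12 := ha.mod12
  have h4 := tw4 (a := a) (n := n) (by omega) (by have := hn.2; omega)
  have h := tw_mul a n
  set g := Nat.gcd a n with hg
  have hga : g ∣ a := Nat.gcd_dvd_left a n
  have h3 : tw a n % 3 = 2 := by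
    have g3 : g % 3 ≠ 0 := fun h0 => by
      have := (Nat.dvd_of_mod_eq_zero h0).trans hga
      omega
    have e1 : g ^ 2 % 3 = 1 := by
      rw [Nat.pow_mod]
      have : g % 3 < 3 := Nat.mod_lt _ (by norm_num)
      interval_cases g % 3 <;> simp_all
    have e2 : tw a n * g ^ 2 % 3 = tw a n % 3 := by
      rw [Nat.mul_mod, e1, mul_one, Nat.mod_mod]
    rw [h, Nat.mul_mod] at e2
    have e3 : a % 3 = 1 := by omega
    have e4 : n % 3 = 2 := by have := hn.2; omega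
    rw [e3, e4] at e2
    omega
  have h5 : tw a n % 5 = 2 ∨ tw a n % 5 = 3 := by
    have g5 : g % 5 ≠ 0 := fun h0 => by
      have := (Nat.dvd_of_mod_eq_zero h0).trans hga
      have := ha.mod5
      omega
    have e1 : g ^ 2 % 5 = 1 ∨ g ^ 2 % 5 = 4 := by
      rw [Nat.pow_mod]
      have : g % 5 < 5 := Nat.mod_lt _ (by norm_num)
      interval_cases g % 5 <;> simp_all
    have e2 : tw a n * g ^ 2 % 5 = 2 ∨ tw a n * g ^ 2 % 5 = 3 := by
      rw [h, Nat.mul_mod]
      have e4 : n % 5 = 2 ∨ n % 5 = 3 := by have := hn.2; omega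
      rcases ha.mod5 with e3 | e3 <;> rcases e4 with e4 | e4 <;> rw [e3, e4] <;> simp
    rw [Nat.mul_mod] at e2
    have : tw a n % 5 < 5 := Nat.mod_lt _ (by norm_num)
    rcases e1 with e1 | e1 <;> rw [e1] at e2 <;> omega
  omega

/-- **JDENS**: for different multipliers and a set `S` of indices exactly the proportion
`η^#S (1 - η)^(M - #S)` of the numbers `n` of the class satisfies: the criterion holds for
`tw (a i) n` for `i` in `S` and for no other `i` -/
theorem t_JDENS {M : ℕ} {a : Fin M → ℕ} (ha : Function.Injective a) (hM : ∀ i, Mult (a i))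
    (S : Finset (Fin M)) :
    Tendsto (fun X : ℕ => (Nat.card {n : ℕ // n ≤ X ∧ Cl n ∧ ∀ i, Qc (tw (a i) n) ↔ i ∈ S} : ℝ) /
      (Nat.card {n : ℕ // n ≤ X ∧ Cl n} : ℝ)) atTop
      (𝓝 ((∏' i : ℕ, (1 - (1 / 2 : ℝ) ^ (i + 1))) ^ S.card *
        (1 - ∏' i : ℕ, (1 - (1 / 2 : ℝ) ^ (i + 1))) ^ (M - S.card))) := by
  have h := patP ha (fun i => (hM i).sqf) (fun i => by have := (hM i).mod12; omega) 120
    (by norm_num) (by norm_num) P60 (fun n => by unfold P60; omega)
    (fun n hn => by unfold P60 at hn; omega) 23 (by unfold P60; norm_num) (by norm_num) S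
  unfold Prp nm at h
  refine h.congr fun X => ?_
  have e : Nat.card {m : ℕ // m ≤ X ∧ (Squarefree m ∧ P60 m) ∧ True} =
      Nat.card {m : ℕ // m ≤ X ∧ Cl m} :=
    Nat.card_congr (Equiv.subtypeEquivRight fun m => by rw [and_true]; rfl)
  rw [e]
  rfl

end Pool.Agent.Run7.h289.XK
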