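import Pool.Agent.Run7.h289.XK.SPL
import Pool.Agent.Run7.h483.NF.MUL
import Pool.Agent.Run7.h483.NF.M15

/-!
# Project XK, piece M15K (helper289): the places above three and five

The first part (above three) is the proof of `Run7/h483/NF/M15` (helper483).
-/

set_option autoImplicit false
set_option linter.unusedVariables false
set_option linter.unusedSectionVars false

namespace Pool.Agent.Run7.h289.XK

open NumberField IsDedekindDomain WeierstrassCurve
open Pool.Agent.W189.NF (aV eV aLoc eLoc Ov finite_res card_res)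
open Pool.Agent.H921R2.TatePole (below deg nm nm_eq)
open Pool.Agent.Y698 (v_unit)
open Run7.h483.NF (t_MUL sq_iff zero_iff)

theorem inv1 : (Run7.h555.XK.E).c₄ = 481 ∧ (Run7.h555.XK.E).c₆ = 4879 ∧
    (Run7.h555.XK.E).Δ = 50625 := by
  unfold Run7.h555.XK.E
  refine ⟨?_, ?_, ?_⟩
  · simp only [WeierstrassCurve.c₄, WeierstrassCurve.b₂, WeierstrassCurve.b₄]
    norm_num
  · simp only [WeierstrassCurve.c₆, WeierstrassCurve.b₂, WeierstrassCurve.b₄, WeierstrassCurve.b₆]
    norm_num
  · simp only [WeierstrassCurve.Δ, WeierstrassCurve.b₂, WeierstrassCurve.b₄, WeierstrassCurve.b₆,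
      WeierstrassCurve.b₈]
    norm_num

section

variable {F : Type} [Field F] [NumberField F] (v : HeightOneSpectrum (𝓞 F))

theorem hW (v : HeightOneSpectrum (𝓞 F)) :
    (Run7.h555.XK.base Run7.h555.XK.E F).baseChange (v.adicCompletion F) =
      ((Run7.h555.XK.E).map (Int.castRingHom (Ov v))).map
        (algebraMap (Ov v) (v.adicCompletion F)) := by
  unfold Run7.h555.XK.base WeierstrassCurve.baseChange
  rw [WeierstrassCurve.map_map, WeierstrassCurve.map_map]
  congr 1
  exact RingHom.ext_int _ _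

theorem hres (v : HeightOneSpectrum (𝓞 F)) (x : ℤ) : IsLocalRing.residue (Ov v) ((x : ℤ) : Ov v) =
    ((x : ℤ) : IsLocalRing.ResidueField (Ov v)) := map_intCast _ _

/-- the rational integers in the residue field -/
theorem res_zero (v : HeightOneSpectrum (𝓞 F)) (x : ℤ) :
    ((x : ℤ) : IsLocalRing.ResidueField (Ov v)) = 0 ↔ ((below v : ℕ) : ℤ) ∣ x := by
  obtain ⟨n1, n2, n3⟩ := nm_eq v
  have hfin := finite_res v
  have hcard : Nat.card (IsLocalRing.ResidueField (Ov v)) = (below v : ℕ) ^ deg v := by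
    rw [← n1]
    exact card_res v
  have hp : Fact (below v : ℕ).Prime := ⟨(below v).2⟩
  have : Fintype (IsLocalRing.ResidueField (Ov v)) := Fintype.ofFinite _
  -- the characteristic
  have hc0 : ((below v : ℕ) : IsLocalRing.ResidueField (Ov v)) = 0 := by
    have h1 : ((Nat.card (IsLocalRing.ResidueField (Ov v)) : ℕ) :
        IsLocalRing.ResidueField (Ov v)) = 0 := by
      rw [Nat.card_eq_fintype_card]
      exact FiniteField.cast_card_eq_zero _
    rw [hcard, Nat.cast_pow] at h1
    exact eq_zero_of_pow_eq_zero h1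
  have hchar : CharP (IsLocalRing.ResidueField (Ov v)) (below v : ℕ) := by
    obtain ⟨q, hq⟩ := CharP.exists (IsLocalRing.ResidueField (Ov v))
    have hd : q ∣ (below v : ℕ) := (CharP.cast_eq_zero_iff _ q _).1 hc0
    rcases (Nat.dvd_prime (below v).2).1 hd with h | h
    · exfalso
      subst h
      exact CharP.char_ne_one (IsLocalRing.ResidueField (Ov v)) 1 rfl
    · rw [← h]
      exact hq
  exact CharP.intCast_eq_zero_iff _ _ _

end

theorem nsq3 : ¬ IsSquare (((-(481 * 4879) : ℤ)) : ZMod 3) := by decide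

/-- **M15K** -/
theorem t_M15K : Run7.h555.XK.S_M15K := by
  intro K _ _ v
  obtain ⟨i4, i6, iΔ⟩ := inv1
  have hΔ : ((Run7.h555.XK.E).map (Int.castRingHom (Ov v))).Δ = (((50625 : ℤ)) : Ov v) := by
    rw [map_Δ, iΔ]
    rfl
  have h4 : ((Run7.h555.XK.E).map (Int.castRingHom (Ov v))).c₄ = (((481 : ℤ)) : Ov v) := by
    rw [map_c₄, i4]
    rfl
  have h6 : ((Run7.h555.XK.E).map (Int.castRingHom (Ov v))).c₆ = (((4879 : ℤ)) : Ov v) := by
    rw [map_c₆, i6]
    rfl
  have e46 : -((((481 : ℤ)) : Ov v) * (((4879 : ℤ)) : Ov v)) =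
      (((-(481 * 4879) : ℤ)) : Ov v) := by push_cast; ring
  have kΔ0 : ((Run7.h555.XK.E).map (Int.castRingHom (Ov v))).Δ ≠ 0 := by
    rw [hΔ]
    intro h
    have h1 := congrArg (algebraMap (Ov v) (v.adicCompletion K)) h
    rw [map_intCast, map_zero] at h1
    have hc : CharZero (v.adicCompletion K) :=
      charZero_of_injective_algebraMap (algebraMap K (v.adicCompletion K)).injective
    have h2 : (50625 : ℤ) = 0 := by exact_mod_cast h1
    norm_num at h2
  have kΔu : ((below v : ℕ) : ℤ) ∣ 50625 →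
      ¬ IsUnit ((Run7.h555.XK.E).map (Int.castRingHom (Ov v))).Δ := by
    intro hd
    rw [hΔ]
    intro hu
    have h := (hu.map (IsLocalRing.residue (Ov v))).ne_zero
    rw [hres] at h
    exact h ((res_zero v _).2 hd)
  have k4 : ¬ ((below v : ℕ) : ℤ) ∣ 481 →
      IsUnit ((Run7.h555.XK.E).map (Int.castRingHom (Ov v))).c₄ := by
    intro hd
    rw [h4]
    by_contra hu
    have h1 : IsLocalRing.residue (Ov v) (((481 : ℤ)) : Ov v) = 0 :=
      (IsLocalRing.residue_eq_zero_iff _).2 ((IsLocalRing.mem_maximalIdeal _).2 hu)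
    rw [hres] at h1
    exact hd ((res_zero v _).1 h1)
  have k2 : ¬ ((below v : ℕ) : ℤ) ∣ 2 → (2 : IsLocalRing.ResidueField (Ov v)) ≠ 0 := by
    intro hd h2
    have h3 : (((2 : ℤ)) : IsLocalRing.ResidueField (Ov v)) = 0 := by
      push_cast
      exact h2
    exact hd ((res_zero v _).1 h3)
  refine ⟨fun hb hdeg => ?_, fun hb => ?_⟩
  · -- three
    have hcard : Nat.card (IsLocalRing.ResidueField (Ov v)) = 3 := by
      obtain ⟨n1, n2, n3⟩ := nm_eq v
      have h : Nat.card (IsLocalRing.ResidueField (Ov v)) = (below v : ℕ) ^ deg v := by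
        rw [← n1]
        exact card_res v
      rw [h, hdeg, pow_one, hb]
    have key := t_MUL (Ov v) (v.adicCompletion K)
      ((Run7.h555.XK.E).map (Int.castRingHom (Ov v)))
    rw [← hW] at key
    refine key (k2 ?_) (kΔu ?_) kΔ0 (k4 ?_) ?_
    · rw [hb]; norm_num
    · rw [hb]; norm_num
    · rw [hb]; norm_num
    · rw [h4, h6, e46, hres]
      have : Fact (Nat.Prime 3) := ⟨Nat.prime_three⟩
      rw [sq_iff hcard]
      exact nsq3
  · -- five
    have key := t_SPL (Ov v) (v.adicCompletion K)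
      ((Run7.h555.XK.E).map (Int.castRingHom (Ov v)))
    rw [← hW] at key
    refine key (k2 ?_) (kΔu ?_) kΔ0 (k4 ?_) ?_
    · rw [hb]; norm_num
    · rw [hb]; norm_num
    · rw [hb]; norm_num
    · rw [h4, h6, e46, hres]
      refine ⟨1, ?_⟩
      have h0 : (((-(481 * 4879) - 1 : ℤ)) : IsLocalRing.ResidueField (Ov v)) = 0 := by
        refine (res_zero v _).2 ?_
        rw [hb]
        norm_num
      rw [Int.cast_sub, Int.cast_one, sub_eq_zero] at h0
      rw [h0, one_mul]

end Pool.Agent.Run7.h289.XK
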