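import Pool.Agent.Run7.h289.XK.DENS
import Pool.Agent.Helper480.E25.F

/-!
# Project XK: almost all `n` have many prime factors

`few_primes` (Helper480): the integers with at most `k` prime factors have density zero.
-/

set_option autoImplicit false
set_option linter.unusedVariables false

open Filter Topology

namespace Pool.Agent.Run7.h289.XK

open Run7.h555.XK (Cl)
open Pool.Agent.N969.P15 (Qc)
open Pool.Agent.Helper480.E25 (cnt1 few_primes)

/-- finitely many `n ≤ X` -/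
theorem fin_le (X : ℕ) (p : ℕ → Prop) : Finite {n : ℕ // n ≤ X ∧ p n} :=
  ((Set.finite_le_nat X).subset fun n hn => hn.1).to_subtype

/-- a property of a positive proportion of the class, with many prime factors -/
theorem many_of {p : ℕ → Prop} {η : ℝ}
    (h : Tendsto (fun X : ℕ => (Nat.card {n : ℕ // n ≤ X ∧ Cl n ∧ p n} : ℝ) /
      (Nat.card {n : ℕ // n ≤ X ∧ Cl n} : ℝ)) atTop (𝓝 η)) (k : ℕ) :
    Tendsto (fun X : ℕ =>
      (Nat.card {n : ℕ // n ≤ X ∧ Cl n ∧ p n ∧ k ≤ n.primeFactors.card} : ℝ) /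
      (Nat.card {n : ℕ // n ≤ X ∧ Cl n} : ℝ)) atTop (𝓝 η) := by
  classical
  obtain ⟨α, hα, hlow⟩ := low_Cl
  -- the number of the others
  have hsplit : ∀ X : ℕ, Nat.card {n : ℕ // n ≤ X ∧ Cl n ∧ p n} =
      Nat.card {n : ℕ // n ≤ X ∧ Cl n ∧ p n ∧ k ≤ n.primeFactors.card} +
      Nat.card {n : ℕ // n ≤ X ∧ Cl n ∧ p n ∧ ¬ k ≤ n.primeFactors.card} := by
    intro X
    have e : {n : ℕ | n ≤ X ∧ Cl n ∧ p n} =
        {n : ℕ | n ≤ X ∧ Cl n ∧ p n ∧ k ≤ n.primeFactors.card} ∪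
        {n : ℕ | n ≤ X ∧ Cl n ∧ p n ∧ ¬ k ≤ n.primeFactors.card} := by
      ext n
      simp only [Set.mem_ofPred_eq, Set.mem_union]
      by_cases hk : k ≤ n.primeFactors.card
      · simp [hk]
      · simp [hk]
    have hd : Disjoint {n : ℕ | n ≤ X ∧ Cl n ∧ p n ∧ k ≤ n.primeFactors.card}
        {n : ℕ | n ≤ X ∧ Cl n ∧ p n ∧ ¬ k ≤ n.primeFactors.card} := by
      rw [Set.disjoint_left]
      intro n h1 h2
      exact h2.2.2.2 h1.2.2.2
    have h1 := Set.ncard_union_eq hd ((Set.finite_le_nat X).subset fun n hn => hn.1)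
      ((Set.finite_le_nat X).subset fun n hn => hn.1)
    rw [← e] at h1
    exact h1
  have hsmall : ∀ X : ℕ, Nat.card {n : ℕ // n ≤ X ∧ Cl n ∧ p n ∧ ¬ k ≤ n.primeFactors.card} ≤
      cnt1 {m | m.primeFactors.card ≤ k} X := by
    intro X
    have h1 : {n : ℕ | n ≤ X ∧ Cl n ∧ p n ∧ ¬ k ≤ n.primeFactors.card} ⊆
        ↑((Finset.Icc 1 X).filter (fun t => t ∈ {m : ℕ | m.primeFactors.card ≤ k})) := by
      intro n hn
      obtain ⟨h1, ⟨h2, h3⟩, -, h4⟩ := hn
      simp only [Finset.coe_filter, Finset.mem_Icc, Set.mem_ofPred_eq]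
      refine ⟨⟨?_, h1⟩, by omega⟩
      omega
    have h2 := Set.ncard_le_ncard h1 (Finset.finite_toSet _)
    rw [Set.ncard_coe_finset] at h2
    unfold cnt1
    refine le_trans h2 (Finset.card_le_card fun x hx => ?_)
    simp only [Finset.mem_filter] at hx ⊢
    exact hx
  have hz : Tendsto (fun X : ℕ =>
      (Nat.card {n : ℕ // n ≤ X ∧ Cl n ∧ p n ∧ ¬ k ≤ n.primeFactors.card} : ℝ) /
      (Nat.card {n : ℕ // n ≤ X ∧ Cl n} : ℝ)) atTop (𝓝 0) := by
    have h1 := (few_primes k).const_mul (1 / α)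
    rw [mul_zero] at h1
    refine tendsto_of_tendsto_of_tendsto_of_le_of_le' tendsto_const_nhds h1
      (Eventually.of_forall fun X => by positivity) ?_
    filter_upwards [hlow, eventually_ge_atTop 1] with X hX hX1
    have hXp : (0 : ℝ) < X := by exact_mod_cast hX1
    have hB : (0 : ℝ) < (Nat.card {n : ℕ // n ≤ X ∧ Cl n} : ℝ) :=
      lt_of_lt_of_le (mul_pos hα hXp) hX
    rw [div_le_iff₀ hB]
    have h2 : (Nat.card {n : ℕ // n ≤ X ∧ Cl n ∧ p n ∧ ¬ k ≤ n.primeFactors.card} : ℝ) ≤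
        (cnt1 {m | m.primeFactors.card ≤ k} X : ℝ) := by exact_mod_cast hsmall X
    refine h2.trans ?_
    have h3 : (0 : ℝ) ≤ 1 / α * ((cnt1 {m | m.primeFactors.card ≤ k} X : ℝ) / X) := by positivity
    calc (cnt1 {m | m.primeFactors.card ≤ k} X : ℝ)
        = 1 / α * ((cnt1 {m | m.primeFactors.card ≤ k} X : ℝ) / X) * (α * X) := by
          field_simp
      _ ≤ _ := mul_le_mul_of_nonneg_left hX h3
  have h2 := h.sub hz
  rw [sub_zero] at h2
  refine h2.congr fun X => ?_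
  rw [hsplit X, Nat.cast_add, add_div, add_sub_cancel_right]

/-- **MANY**: for each `k`, exactly the proportion `η` of the class satisfies the criterion and has
at least `k` prime factors -/
theorem t_MANY (k : ℕ) : Tendsto (fun X : ℕ =>
    (Nat.card {n : ℕ // n ≤ X ∧ Cl n ∧ Qc n ∧ k ≤ n.primeFactors.card} : ℝ) /
    (Nat.card {n : ℕ // n ≤ X ∧ Cl n} : ℝ)) atTop
      (𝓝 (∏' i : ℕ, (1 - (1 / 2 : ℝ) ^ (i + 1)))) := many_of t_DENS k

end Pool.Agent.Run7.h289.XK
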