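import Mathlib

/-!
# Project XK: squarefree integers with prime factors in a finite set, as vectors over `F_2`
-/

set_option autoImplicit false

namespace Pool.Agent.Run7.h289.XK

open Finset

theorem z2 : ∀ a b : ZMod 2, a ≠ 0 → b ≠ 0 → a + b = 0 := by decide

theorem z2' : ∀ a b : ZMod 2, (a ≠ 0 ↔ b ≠ 0) → a = b := by decide

/-- `p* = ± p = 1 mod 4` -/
def st (p : ℕ) : ℤ := if p % 4 = 1 then p else -p

theorem st_natAbs (p : ℕ) : (st p).natAbs = p := by
  unfold st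
  split_ifs <;> simp

theorem st_mod {p : ℕ} (h : p % 2 = 1) : st p % 4 = 1 := by
  unfold st
  split_ifs <;> omega

/-- the product of the `f p` with `x p ≠ 0` -/
noncomputable def PR (f : ℕ → ℤ) (P : Finset ℕ) (x : P → ZMod 2) : ℤ :=
  ∏ p : P, if x p = 0 then 1 else f p

section

variable {f : ℕ → ℤ} {P : Finset ℕ}

theorem PR_natAbs (hf : ∀ p, (f p).natAbs = p) (x : P → ZMod 2) :
    (PR f P x).natAbs = ∏ p : P, if x p = 0 then 1 else (p : ℕ) := by
  unfold PR
  rw [← Int.natAbsHom_apply, map_prod]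
  refine Finset.prod_congr rfl fun p _ => ?_
  rw [Int.natAbsHom_apply]
  split_ifs
  · rfl
  · exact hf p

theorem dvd_PR (hf : ∀ p, (f p).natAbs = p) (hP : ∀ p ∈ P, p.Prime) (x : P → ZMod 2) {p : ℕ}
    (hp : p.Prime) : (p : ℤ) ∣ PR f P x ↔ ∃ h : p ∈ P, x ⟨p, h⟩ ≠ 0 := by
  rw [Int.natCast_dvd, PR_natAbs hf, hp.prime.dvd_finsetProd_iff]
  constructor
  · rintro ⟨q, -, hq⟩
    split_ifs at hq with h
    · exact absurd (Nat.dvd_one.1 hq) hp.one_lt.ne'
    · have e : p = q := (Nat.prime_dvd_prime_iff_eq hp (hP q q.2)).1 hq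
      subst e
      exact ⟨q.2, h⟩
  · rintro ⟨h, hx⟩
    refine ⟨⟨p, h⟩, mem_univ _, ?_⟩
    rw [if_neg hx]

theorem PR_sf (hf : ∀ p, (f p).natAbs = p) (hP : ∀ p ∈ P, p.Prime) (x : P → ZMod 2) :
    Squarefree (PR f P x).natAbs := by
  rw [PR_natAbs hf]
  refine Finset.squarefree_prod_of_pairwise_isCoprime ?_ ?_
  · intro p _ q _ hpq
    show IsRelPrime _ _
    rw [← Nat.coprime_iff_isRelPrime]
    show Nat.Coprime (if x p = 0 then 1 else (p : ℕ)) (if x q = 0 then 1 else (q : ℕ))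
    split_ifs
    · exact Nat.coprime_one_left _
    · exact Nat.coprime_one_left _
    · exact Nat.coprime_one_right _
    · exact (Nat.coprime_primes (hP p p.2) (hP q q.2)).2 fun h => hpq (Subtype.ext h)
  · intro p _
    split_ifs
    · exact squarefree_one
    · exact (hP p p.2).squarefree

theorem PR_four (hf : ∀ p ∈ P, f p % 4 = 1) (x : P → ZMod 2) : PR f P x % 4 = 1 := by
  unfold PR
  refine Finset.prod_induction _ (fun z : ℤ => z % 4 = 1) (fun a b ha hb => ?_) (by norm_num)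
    fun p _ => ?_
  · rw [Int.mul_emod, ha, hb]
    norm_num
  · split_ifs
    · norm_num
    · exact hf p p.2

theorem PR_two (hf : ∀ p ∈ P, f p % 2 = 1) (x : P → ZMod 2) : PR f P x % 2 = 1 := by
  unfold PR
  refine Finset.prod_induction _ (fun z : ℤ => z % 2 = 1) (fun a b ha hb => ?_) (by norm_num)
    fun p _ => ?_
  · rw [Int.mul_emod, ha, hb]
    norm_num
  · split_ifs
    · norm_num
    · exact hf p p.2

theorem PR_pos (hf : ∀ p ∈ P, 0 < f p) (x : P → ZMod 2) : 0 < PR f P x := by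
  unfold PR
  refine Finset.prod_pos fun p _ => ?_
  split_ifs
  · exact one_pos
  · exact hf p p.2

theorem PR_add (hf : ∀ p ∈ P, f p ≠ 0) (x y : P → ZMod 2) :
    ∃ c : ℤ, c ≠ 0 ∧ PR f P x * PR f P y = PR f P (x + y) * c ^ 2 := by
  refine ⟨∏ p : P, if x p = 0 ∨ y p = 0 then 1 else f p, ?_, ?_⟩
  · refine Finset.prod_ne_zero_iff.2 fun p _ => ?_
    split_ifs
    · exact one_ne_zero
    · exact hf p p.2
  · unfold PR
    rw [← Finset.prod_pow, ← Finset.prod_mul_distrib, ← Finset.prod_mul_distrib]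
    refine Finset.prod_congr rfl fun p _ => ?_
    rw [Pi.add_apply]
    by_cases h1 : x p = 0
    · rw [h1, zero_add, if_pos rfl, if_pos (Or.inl rfl)]
      ring
    · by_cases h2 : y p = 0
      · rw [h2, add_zero, if_pos (rfl : (0 : ZMod 2) = 0), if_pos (Or.inr rfl)]
        ring
      · rw [if_neg h1, if_neg h2, if_pos (z2 _ _ h1 h2), if_neg (not_or.2 ⟨h1, h2⟩)]
        ring

end

/-- squarefree numbers with the same prime factors are equal -/
theorem sfx {s t : ℕ} (hs : Squarefree s) (ht : Squarefree t)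
    (h : ∀ p : ℕ, p.Prime → (p ∣ s ↔ p ∣ t)) : s = t := by
  rw [← Nat.prod_primeFactors_of_squarefree hs, ← Nat.prod_primeFactors_of_squarefree ht]
  refine Finset.prod_congr ?_ fun _ _ => rfl
  ext p
  rw [Nat.mem_primeFactors, Nat.mem_primeFactors]
  constructor
  · rintro ⟨h1, h2, -⟩
    exact ⟨h1, (h p h1).1 h2, ht.ne_zero⟩
  · rintro ⟨h1, h2, -⟩
    exact ⟨h1, (h p h1).2 h2, hs.ne_zero⟩

/-- the sign -/
def sg (s : ZMod 2) : ℤ := if s = 0 then 1 else -1

theorem sg_add (s t : ZMod 2) : sg s * sg t = sg (s + t) := by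
  unfold sg
  by_cases h1 : s = 0
  · rw [h1, zero_add, if_pos rfl, one_mul]
  · by_cases h2 : t = 0
    · rw [h2, add_zero, if_pos (rfl : (0 : ZMod 2) = 0), mul_one]
    · rw [if_neg h1, if_neg h2, if_pos (z2 _ _ h1 h2)]
      norm_num

theorem sg_natAbs (s : ZMod 2) : (sg s).natAbs = 1 := by
  unfold sg
  split_ifs <;> rfl

/-- the vector of an integer -/
noncomputable def vec (P : Finset ℕ) (a : ℤ) : P → ZMod 2 := by
  classical
  exact fun p => if ((p : ℕ) : ℤ) ∣ a then 1 else 0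

theorem vec_ne {P : Finset ℕ} {a : ℤ} {p : P} : vec P a p ≠ 0 ↔ ((p : ℕ) : ℤ) ∣ a := by
  unfold vec
  split_ifs with h
  · exact ⟨fun _ => h, fun _ => one_ne_zero⟩
  · exact ⟨fun h' => absurd rfl h', fun h' => absurd h' h⟩

theorem PR_vec {f : ℕ → ℤ} {P : Finset ℕ} (hf : ∀ p, (f p).natAbs = p) (hP : ∀ p ∈ P, p.Prime)
    {a : ℤ} (ha : Squarefree a.natAbs) (hap : ∀ p : ℕ, p.Prime → (p : ℤ) ∣ a → p ∈ P) :
    (PR f P (vec P a)).natAbs = a.natAbs := by
  refine sfx (PR_sf hf hP _) ha fun p hp => ?_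
  rw [← Int.natCast_dvd, ← Int.natCast_dvd, dvd_PR hf hP _ hp]
  constructor
  · rintro ⟨h, h1⟩
    exact vec_ne.1 h1
  · intro h
    exact ⟨hap p hp h, vec_ne.2 h⟩

end Pool.Agent.Run7.h289.XK
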