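import Pool.Agent.Run7.h289.XK.Cp0
import Pool.Agent.Run7.h555.XK.Stm

/-!
# Project XK, the piece CPER: the complex period
-/

set_option autoImplicit false

namespace Pool.Agent.Run7.h289.XK

open Run7.h555.XK

theorem t_CPER : S_CPER := by
  intro L Op Om hOp hOm hg2 hg3 hL
  have h := CPER.s_perc L Op Om hOp hOm hg2 hg3 hL
  have h2 : E.b₂ = 5 := by
    unfold E WeierstrassCurve.b₂
    norm_num
  have h4 : E.b₄ = -19 := by
    unfold E WeierstrassCurve.b₄
    norm_num
  have h6 : E.b₆ = -39 := by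
    unfold E WeierstrassCurve.b₆
    norm_num
  have hc : ∀ x : ℂ, cubic E x = 4 * x ^ 3 + 5 * x ^ 2 - 38 * x - 39 := by
    intro x
    unfold cubic
    rw [h2, h4, h6]
    push_cast
    ring
  unfold complexPeriod
  simp only [hc]
  rw [h]
  ring

end Pool.Agent.Run7.h289.XK
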