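import Pool.Agent.Run7.h289.XK.KER
import Pool.Agent.Run7.h289.XK.Pr

/-!
# Project XK, the piece ALG: the order of the 2-primary part of `Ш(E/K)`
-/

set_option autoImplicit false

open NumberField IsDedekindDomain WeierstrassCurve

namespace Pool.Agent.Run7.h289.XK

open Pool.Agent.TH841.SH.D (Pt act Gal Coch IsCoc IsCob LocTriv cob)
open Pool.Agent.TH841.NF.D (Sha IsShaCoc shaCoc)
open Pool.Agent.TH841.SH (IsR)
open Pool.Agent.N969.P15 (Qc)
open Run7.h135.XK

/-- the group which parametrizes the classes -/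
abbrev GG (n : ℕ) : Type :=
  ((5 * n).primeFactors → ZMod 2) × (n.primeFactors → ZMod 2) × ZMod 2

section

variable {n : ℕ}

/-- the first coordinate -/
noncomputable def fa (g : GG n) : ℤ := PR st (5 * n).primeFactors g.1

/-- the second coordinate -/
noncomputable def fb (g : GG n) : ℤ := sg g.2.2 * PR (fun p => (p : ℤ)) n.primeFactors g.2.1

theorem pr5 {p : ℕ} (h : p ∈ (5 * n).primeFactors) : p.Prime := (Nat.mem_primeFactors.1 h).1

theorem prn {p : ℕ} (h : p ∈ n.primeFactors) : p.Prime := (Nat.mem_primeFactors.1 h).1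

theorem odd5 (hC : Cl n) {p : ℕ} (h : p ∈ (5 * n).primeFactors) : p % 2 = 1 := by
  rcases Nat.even_or_odd p with he | ho
  · exfalso
    have h1 : 2 ∣ 5 * n := he.two_dvd.trans (Nat.mem_primeFactors.1 h).2.1
    have h2 := hC.2
    omega
  · exact Nat.odd_iff.1 ho

theorem oddn (hC : Cl n) {p : ℕ} (h : p ∈ n.primeFactors) : p % 2 = 1 := by
  rcases Nat.even_or_odd p with he | ho
  · exfalso
    have h1 : 2 ∣ n := he.two_dvd.trans (Nat.mem_primeFactors.1 h).2.1
    have h2 := hC.2
    omega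
  · exact Nat.odd_iff.1 ho

theorem fa_sf (g : GG n) : Squarefree (fa g).natAbs := PR_sf st_natAbs (fun _ => pr5) _

theorem natAbs_id (p : ℕ) : ((fun p : ℕ => (p : ℤ)) p).natAbs = p := Int.natAbs_natCast p

theorem fb_natAbs (g : GG n) :
    (fb g).natAbs = (PR (fun p => (p : ℤ)) n.primeFactors g.2.1).natAbs := by
  unfold fb
  rw [Int.natAbs_mul, sg_natAbs, one_mul]

theorem fb_sf (g : GG n) : Squarefree (fb g).natAbs := by
  rw [fb_natAbs]
  exact PR_sf natAbs_id (fun _ => prn) _

theorem dvd_fa (g : GG n) {p : ℕ} (hp : p.Prime) :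
    (p : ℤ) ∣ fa g ↔ ∃ h : p ∈ (5 * n).primeFactors, g.1 ⟨p, h⟩ ≠ 0 :=
  dvd_PR st_natAbs (fun _ => pr5) _ hp

theorem dvd_fb (g : GG n) {p : ℕ} (hp : p.Prime) :
    (p : ℤ) ∣ fb g ↔ ∃ h : p ∈ n.primeFactors, g.2.1 ⟨p, h⟩ ≠ 0 := by
  rw [Int.natCast_dvd, fb_natAbs, ← Int.natCast_dvd]
  exact dvd_PR natAbs_id (fun _ => prn) _ hp

theorem cond_of (hC : Cl n) (g : GG n) : Cond n (fa g) (fb g) := by
  have hn := hC.2
  constructor
  · exact fa_sf g
  · exact fb_sf g
  · exact PR_four (fun p hp => st_mod (odd5 hC hp)) _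
  · unfold fb
    have h1 := PR_two (f := fun p => (p : ℤ)) (P := n.primeFactors)
      (fun p hp => by have := oddn hC hp; show (p : ℤ) % 2 = 1; omega) g.2.1
    unfold sg
    split_ifs
    · omega
    · omega
  · intro h
    obtain ⟨h1, -⟩ := (dvd_fa g (p := 3) (by norm_num)).1 (by exact_mod_cast h)
    have h2 := (Nat.mem_primeFactors.1 h1).2.1
    omega
  · intro h
    obtain ⟨h1, -⟩ := (dvd_fb g (p := 3) (by norm_num)).1 (by exact_mod_cast h)
    have h2 := (Nat.mem_primeFactors.1 h1).2.1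
    omega
  · intro h
    obtain ⟨h1, -⟩ := (dvd_fb g (p := 5) (by norm_num)).1 (by exact_mod_cast h)
    have h2 := (Nat.mem_primeFactors.1 h1).2.1
    omega
  · rintro p hp (h | h)
    · obtain ⟨h1, -⟩ := (dvd_fa g hp).1 h
      exact (Nat.mem_primeFactors.1 h1).2.1
    · obtain ⟨h1, -⟩ := (dvd_fb g hp).1 h
      exact (Nat.mem_primeFactors.1 h1).2.1.mul_left 5

theorem surj (hC : Cl n) {a b : ℤ} (h : Cond n a b) : ∃ g : GG n, fa g = a ∧ fb g = b := by
  have hn0 : n ≠ 0 := hC.1.ne_zero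
  have hp5 : ∀ p : ℕ, p.Prime → (p : ℤ) ∣ a → p ∈ (5 * n).primeFactors := fun p hp hd =>
    Nat.mem_primeFactors.2 ⟨hp, h.pr p hp (Or.inl hd), mul_ne_zero (by norm_num) hn0⟩
  have hpn : ∀ p : ℕ, p.Prime → (p : ℤ) ∣ b → p ∈ n.primeFactors := by
    intro p hp hd
    have h1 := h.pr p hp (Or.inr hd)
    refine Nat.mem_primeFactors.2 ⟨hp, ?_, hn0⟩
    rcases hp.dvd_mul.1 h1 with h2 | h2
    · exfalso
      have h3 : p = 5 := (Nat.prime_dvd_prime_iff_eq hp (by norm_num)).1 h2
      subst h3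
      exact h.b5 (by exact_mod_cast hd)
    · exact h2
  refine ⟨(vec _ a, vec _ b, if 0 < b then 0 else 1), ?_, ?_⟩
  · have h1 : (fa ((vec _ a, vec _ b, if 0 < b then 0 else 1) : GG n)).natAbs = a.natAbs :=
      PR_vec st_natAbs (fun _ => pr5) h.sa hp5
    have h2 : fa ((vec _ a, vec _ b, if 0 < b then 0 else 1) : GG n) % 4 = 1 :=
      PR_four (fun p hp => st_mod (odd5 hC hp)) _
    have h3 := h.a4
    omega
  · have h1 : (PR (fun p => (p : ℤ)) n.primeFactors (vec _ b)).natAbs = b.natAbs :=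
      PR_vec natAbs_id (fun _ => prn) h.sb hpn
    have h2 : 0 < PR (fun p => (p : ℤ)) n.primeFactors (vec _ b) :=
      PR_pos (fun p hp => by exact_mod_cast (prn hp).pos) _
    have h3 := h.b2
    show sg (if 0 < b then 0 else 1) * PR (fun p => (p : ℤ)) n.primeFactors (vec _ b) = b
    unfold sg
    split_ifs with h4 h5 h5
    · omega
    · exact absurd rfl h5
    · exact absurd h5 one_ne_zero
    · omega

theorem inj (g g' : GG n) (h1 : fa g = fa g') (h2 : fb g = fb g') : g = g' := by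
  obtain ⟨x, y, s⟩ := g
  obtain ⟨x', y', s'⟩ := g'
  have e1 : x = x' := by
    funext p
    refine z2' _ _ ?_
    have hp := pr5 p.2
    have h3 := dvd_fa (x, y, s) hp
    have h4 := dvd_fa (x', y', s') hp
    rw [h1] at h3
    constructor
    · intro h
      obtain ⟨_, h5⟩ := h4.1 (h3.2 ⟨p.2, h⟩)
      exact h5
    · intro h
      obtain ⟨_, h5⟩ := h3.1 (h4.2 ⟨p.2, h⟩)
      exact h5
  have e2 : y = y' := by
    funext p
    refine z2' _ _ ?_
    have hp := prn p.2
    have h3 := dvd_fb (x, y, s) hp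
    have h4 := dvd_fb (x', y', s') hp
    rw [h2] at h3
    constructor
    · intro h
      obtain ⟨_, h5⟩ := h4.1 (h3.2 ⟨p.2, h⟩)
      exact h5
    · intro h
      obtain ⟨_, h5⟩ := h3.1 (h4.2 ⟨p.2, h⟩)
      exact h5
  subst e1 e2
  have e3 : s = s' := by
    have h3 : 0 < PR (fun p => (p : ℤ)) n.primeFactors y :=
      PR_pos (fun p hp => by exact_mod_cast (prn hp).pos) _
    have h4 : sg s * PR (fun p => (p : ℤ)) n.primeFactors y =
        sg s' * PR (fun p => (p : ℤ)) n.primeFactors y := h2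
    have h5 := mul_right_cancel₀ h3.ne' h4
    refine z2' _ _ ?_
    unfold sg at h5
    constructor
    · intro h6 h7
      rw [if_neg h6, if_pos h7] at h5
      norm_num at h5
    · intro h6 h7
      rw [if_neg h6, if_pos h7] at h5
      norm_num at h5
  rw [e3]

theorem two_GG (g : GG n) : g + g = 0 := by
  have hz : ∀ a : ZMod 2, a + a = 0 := by decide
  obtain ⟨x, y, s⟩ := g
  refine Prod.ext (funext fun p => hz _) (Prod.ext (funext fun p => hz _) (hz _))

end

section

variable {K : Type} [Field K] [NumberField K] {n : ℕ} {r : K}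

/-- the cocycle -/
noncomputable def ph (K : Type) [Field K] [NumberField K] {n : ℕ} (g : GG n) : Coch (E0 K) :=
  Cc (E0 K) 0 9 ((fa g : ℤ) : K) ((fb g : ℤ) : K)

theorem castK_ne {m : ℤ} (hm : Squarefree m.natAbs) : (m : K) ≠ 0 := by
  have : m ≠ 0 := by
    rintro rfl
    exact hm.ne_zero rfl
  exact_mod_cast this

theorem ph_add (hCAD : S_CAD) (g g' : GG n) : ph K (g + g') = ph K g + ph K g' := by
  obtain ⟨c1, c2, c3⟩ := hCAD K (E0 K) 0 9 25 (isR_E0 K) (ne09 K) (ne025 K) (ne925 K)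
  obtain ⟨c, hc, e1⟩ := PR_add (f := st) (P := (5 * n).primeFactors)
    (fun p hp h => by
      have h1 := st_natAbs p
      rw [h] at h1
      exact (pr5 hp).ne_zero h1.symm) g.1 g'.1
  obtain ⟨d, hd, e2⟩ := PR_add (f := fun p => (p : ℤ)) (P := n.primeFactors)
    (fun p hp => by
      show (p : ℤ) ≠ 0
      exact_mod_cast (prn hp).ne_zero) g.2.1 g'.2.1
  have e1' : fa g * fa g' = fa (g + g') * c ^ 2 := e1
  have e2' : fb g * fb g' = fb (g + g') * d ^ 2 := by
    have h1 : fb g * fb g' = (sg g.2.2 * sg g'.2.2) *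
        (PR (fun p => (p : ℤ)) n.primeFactors g.2.1 *
          PR (fun p => (p : ℤ)) n.primeFactors g'.2.1) := by
      unfold fb
      ring
    rw [h1, e2, sg_add]
    show _ = (sg (g.2.2 + g'.2.2) * PR (fun p => (p : ℤ)) n.primeFactors (g.2.1 + g'.2.1)) * d ^ 2
    ring
  unfold ph
  rw [← c2 _ _ _ _ (castK_ne (fa_sf g)) (castK_ne (fb_sf g)) (castK_ne (fa_sf g'))
    (castK_ne (fb_sf g'))]
  rw [← Int.cast_mul, ← Int.cast_mul, e1', e2']
  push_cast
  exact (c3 _ _ _ _ (castK_ne (fa_sf _)) (castK_ne (fb_sf _)) (by exact_mod_cast hc)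
    (by exact_mod_cast hd)).symm

end

/-- **the order of the 2-primary part** -/
theorem t_ALG (hCAD : S_CAD) (hLOCS : S_LOCS) (hLOCN : S_LOCN) (hRAT : S_RAT) (hKIL : S_KIL)
    (hTOR : S_TOR) (hKER : S_KER) : S_ALG := by
  classical
  intro K _ _ n r hC hQc hQ
  refine ⟨(hTOR K n r hC hQc hQ).2, hKIL K n r hC hQc hQ, ?_⟩
  have hn0 : n ≠ 0 := hC.1.ne_zero
  have hn := hC.2
  have hsh : ∀ g : GG n, IsShaCoc (E0 K) (ph K g) := fun g =>
    hLOCS K n r hC hQ _ _ (cond_of hC g)
  let ψ : GG n →+ Sha (E0 K) := AddMonoidHom.mk' (fun g => cl (ph K g) (hsh g)) (by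
    intro g g'
    rw [← cl_add (hsh g) (hsh g') (sha_add (hsh g) (hsh g'))]
    rw [cl_eq, ph_add hCAD, sub_self]
    exact (cob (E0 K)).zero_mem)
  have hψ : ∀ g, ψ g = cl (ph K g) (hsh g) := fun _ => rfl
  have hrange : ∀ x : Sha (E0 K), (∃ k : ℕ, 2 ^ k • x = 0) ↔ x ∈ ψ.range := by
    intro x
    constructor
    · rintro ⟨k, hk⟩
      have h2 := hKIL K n r hC hQc hQ k x hk
      obtain ⟨a, b, hsa, hsb, hf, rfl⟩ := hRAT K n r hC hQ x h2
      obtain ⟨g, hga, hgb⟩ := surj hC (hLOCN K n r hC hQ a b hsa hsb hf)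
      refine ⟨g, ?_⟩
      rw [hψ, cl_eq]
      have e : ph K g = Cc (E0 K) 0 9 (a : K) (b : K) := by
        unfold ph
        rw [hga, hgb]
      rw [e, sub_self]
      exact (cob (E0 K)).zero_mem
    · rintro ⟨g, rfl⟩
      refine ⟨1, ?_⟩
      rw [pow_one, two_nsmul, ← map_add, two_GG, map_zero]
  have h1 : Nat.card {x : Sha (E0 K) // ∃ k : ℕ, 2 ^ k • x = 0} = Nat.card ψ.range :=
    Nat.card_congr (Equiv.subtypeEquivRight hrange)
  have h2 : Nat.card ψ.ker * Nat.card ψ.range = Nat.card (GG n) := by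
    rw [← AddSubgroup.index_ker]
    exact AddSubgroup.card_mul_index _
  have h3 : Nat.card ψ.ker = 16 := by
    have hA : (({1, 5, -(n : ℤ), -5 * (n : ℤ)} : Finset ℤ)).card = 4 := by
      rw [Finset.card_insert_of_notMem, Finset.card_insert_of_notMem,
        Finset.card_insert_of_notMem, Finset.card_singleton]
      · simp only [Finset.mem_singleton]
        omega
      · simp only [Finset.mem_insert, Finset.mem_singleton]
        omega
      · simp only [Finset.mem_insert, Finset.mem_singleton]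
        omega
    have hB : (({1, -1, (n : ℤ), -(n : ℤ)} : Finset ℤ)).card = 4 := by
      rw [Finset.card_insert_of_notMem, Finset.card_insert_of_notMem,
        Finset.card_insert_of_notMem, Finset.card_singleton]
      · simp only [Finset.mem_singleton]
        omega
      · simp only [Finset.mem_insert, Finset.mem_singleton]
        omega
      · simp only [Finset.mem_insert, Finset.mem_singleton]
        omega
    have hmem : ∀ g : GG n, g ∈ ψ.ker ↔ (fa g, fb g) ∈
        (({1, 5, -(n : ℤ), -5 * (n : ℤ)} : Finset ℤ) ×ˢ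
          ({1, -1, (n : ℤ), -(n : ℤ)} : Finset ℤ)) := by
      intro g
      rw [AddMonoidHom.mem_ker, hψ, cl_eq_zero]
      have h4 := hKER K n r hC hQc hQ _ _ (cond_of hC g)
      rw [Finset.mem_product]
      simp only [Finset.mem_insert, Finset.mem_singleton]
      exact h4
    have hcond : ∀ p ∈ (({1, 5, -(n : ℤ), -5 * (n : ℤ)} : Finset ℤ) ×ˢ
          ({1, -1, (n : ℤ), -(n : ℤ)} : Finset ℤ)), Cond n p.1 p.2 := by
      rintro ⟨a, b⟩ hab
      rw [Finset.mem_product] at hab
      simp only [Finset.mem_insert, Finset.mem_singleton] at hab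
      obtain ⟨ha, hb⟩ := hab
      have ha' : a.natAbs = 1 ∨ a.natAbs = 5 ∨ a.natAbs = n ∨ a.natAbs = 5 * n := by omega
      have hb' : b.natAbs = 1 ∨ b.natAbs = n := by omega
      constructor
      · show Squarefree a.natAbs
        rcases ha' with h | h | h | h <;> rw [h]
        · exact squarefree_one
        · exact (by norm_num : Nat.Prime 5).squarefree
        · exact hC.1
        · exact five_n hC
      · show Squarefree b.natAbs
        rcases hb' with h | h <;> rw [h]
        · exact squarefree_one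
        · exact hC.1
      · show a % 4 = 1
        omega
      · show b % 2 = 1
        omega
      · show ¬ (3 : ℤ) ∣ a
        omega
      · show ¬ (3 : ℤ) ∣ b
        omega
      · show ¬ (5 : ℤ) ∣ b
        omega
      · rintro p hp (h | h)
        · have h5 : p ∣ a.natAbs := Int.natCast_dvd.1 h
          rcases ha' with h6 | h6 | h6 | h6 <;> rw [h6] at h5
          · exact absurd (Nat.dvd_one.1 h5) hp.one_lt.ne'
          · exact h5.mul_right n
          · exact h5.mul_left 5
          · exact h5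
        · have h5 : p ∣ b.natAbs := Int.natCast_dvd.1 h
          rcases hb' with h6 | h6 <;> rw [h6] at h5
          · exact absurd (Nat.dvd_one.1 h5) hp.one_lt.ne'
          · exact h5.mul_left 5
    have e : Nat.card ψ.ker = Nat.card ((({1, 5, -(n : ℤ), -5 * (n : ℤ)} : Finset ℤ) ×ˢ
          ({1, -1, (n : ℤ), -(n : ℤ)} : Finset ℤ) : Finset (ℤ × ℤ))) := by
      refine Nat.card_congr (Equiv.ofBijective
        (fun g => ⟨(fa (g : GG n), fb (g : GG n)), (hmem g).1 g.2⟩) ⟨?_, ?_⟩)
      · intro g g' h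
        have h5 := Prod.ext_iff.1 (Subtype.ext_iff.1 h)
        exact Subtype.ext (inj _ _ h5.1 h5.2)
      · rintro ⟨⟨a, b⟩, hab⟩
        obtain ⟨g, hga, hgb⟩ := surj hC (hcond _ hab)
        refine ⟨⟨g, (hmem g).2 ?_⟩, ?_⟩
        · rw [hga, hgb]
          exact hab
        · exact Subtype.ext (Prod.ext hga hgb)
    rw [e, Nat.card_eq_fintype_card, Fintype.card_coe, Finset.card_product, hA, hB]
  have h4 : (5 * n).primeFactors.card = n.primeFactors.card + 1 := by
    have h5 : Nat.Coprime 5 n := by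
      rw [Nat.Prime.coprime_iff_not_dvd (by norm_num)]
      omega
    rw [h5.primeFactors_mul, Finset.card_union_of_disjoint h5.disjoint_primeFactors,
      Nat.Prime.primeFactors (by norm_num), Finset.card_singleton, add_comm]
  have h5 : Nat.card (GG n) = 16 * 4 ^ (n.primeFactors.card - 1) := by
    have h6 : 0 < n.primeFactors.card := by
      rw [Finset.card_pos, Nat.nonempty_primeFactors]
      omega
    have h7 : Nat.card (GG n) = 2 ^ (n.primeFactors.card + 1) * (2 ^ n.primeFactors.card * 2) := by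
      rw [Nat.card_prod, Nat.card_prod, Nat.card_fun, Nat.card_fun, Nat.card_zmod,
        Nat.card_eq_fintype_card, Nat.card_eq_fintype_card, Fintype.card_coe, Fintype.card_coe, h4]
    rw [h7]
    obtain ⟨m, hm⟩ := Nat.exists_eq_add_of_lt h6
    rw [zero_add] at hm
    rw [hm, Nat.add_sub_cancel]
    have e4 : (4 : ℕ) = 2 ^ 2 := by norm_num
    rw [e4, ← pow_mul]
    ring
  rw [h1]
  rw [h3, h5] at h2
  omega

end Pool.Agent.Run7.h289.XK
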