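import Pool.Agent.Run7.h289.XK.RAT

/-!
# Project XK, the piece KER
-/

set_option autoImplicit false

open NumberField IsDedekindDomain WeierstrassCurve

namespace Pool.Agent.Run7.h289.XK

open Pool.Agent.TH841.SH.D (Pt act Gal Coch IsCoc IsCob LocTriv cob)
open Pool.Agent.TH841.NF.D (Sha IsShaCoc shaCoc)
open Pool.Agent.TH841.SH (IsR)
open Pool.Agent.N969.P15 (Qc)
open Run7.h135.XK

theorem sqq {K : Type} [Field K] {c s t : K} (h : c * s ^ 2 = t ^ 2) (hs : s ≠ 0) : IsSquare c := by
  refine ⟨t / s, ?_⟩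
  rw [div_mul_div_comm, eq_div_iff (mul_ne_zero hs hs)]
  linear_combination h

section

variable {K : Type} [Field K] [CharZero K] {n : ℕ} {r : K}

theorem five_n (hC : Cl n) : Squarefree (5 * n) := by
  have h5 : Nat.Coprime 5 n := by
    rw [Nat.Prime.coprime_iff_not_dvd (by norm_num)]
    have := hC.2
    omega
  rw [Nat.squarefree_mul h5]
  exact ⟨(by norm_num : Nat.Prime 5).squarefree, hC.1⟩

theorem sqA (hC : Cl n) (hQ : QK K n r) {m : ℤ} (hm : Squarefree m.natAbs)
    (h : IsSquare (m : K)) : m = 1 ∨ m = -n := by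
  have hn0 : 0 < n := Nat.pos_of_ne_zero hC.1.ne_zero
  have h1 : IsSquare (((m : ℚ)) : K) := by
    rw [Rat.cast_intCast]
    exact h
  rcases sq_K hn0 hQ h1 with h2 | h2
  · left
    have h3 := sf_int (s := 1) squarefree_one hm (by rw [Nat.cast_one, one_mul]; exact h2)
    exact_mod_cast h3
  · right
    have h3 := sf_int (s := n) (m := -m) hC.1 (by rw [Int.natAbs_neg]; exact hm) (by
      push_cast
      rw [mul_neg, ← neg_mul]
      exact h2)
    omega

theorem sqC (hC : Cl n) (hQ : QK K n r) {m : ℤ} (hm : Squarefree m.natAbs)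
    (h : IsSquare (-(m : K))) : m = -1 ∨ m = n := by
  have h1 := sqA (m := -m) hC hQ (by rw [Int.natAbs_neg]; exact hm) (by
    push_cast
    exact h)
  omega

theorem sqB (hC : Cl n) (hQ : QK K n r) {m : ℤ} (hm : Squarefree m.natAbs)
    (h : IsSquare (5 * (m : K))) : m = 5 ∨ m = -5 * n := by
  have hn0 : 0 < n := Nat.pos_of_ne_zero hC.1.ne_zero
  have h1 : IsSquare (((5 * m : ℚ)) : K) := by
    push_cast
    exact h
  rcases sq_K hn0 hQ h1 with h2 | h2
  · left
    have h3 := sf_int (s := 5) (by norm_num : Nat.Prime 5).squarefree hm (by push_cast; exact h2)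
    exact_mod_cast h3
  · right
    have h3 := sf_int (s := 5 * n) (m := -m) (five_n hC) (by rw [Int.natAbs_neg]; exact hm) (by
      push_cast
      have e : 5 * (n : ℚ) * -m = -(n : ℚ) * (5 * m) := by ring
      rw [e]
      exact h2)
    push_cast at h3
    linarith

theorem rt_one (hQ : QK K n r) (hn0 : 0 < n) {m : ℤ} (h : m = 1 ∨ m = -n) :
    ∃ s : K, s ≠ 0 ∧ s ^ 2 = m := by
  rcases h with rfl | rfl
  · exact ⟨1, one_ne_zero, by simp⟩
  · refine ⟨r, ?_, by rw [hQ.sq]; push_cast; rfl⟩
    rintro rfl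
    have h1 := hQ.sq
    have h2 : (n : K) ≠ 0 := by exact_mod_cast hn0.ne'
    apply h2
    linear_combination h1

theorem rt_neg (hQ : QK K n r) (hn0 : 0 < n) {m : ℤ} (h : m = -1 ∨ m = n) :
    ∃ s : K, s ≠ 0 ∧ s ^ 2 = -(m : K) := by
  obtain ⟨s, hs, h1⟩ := rt_one (m := -m) hQ hn0 (by omega)
  refine ⟨s, hs, ?_⟩
  rw [h1]
  push_cast
  rfl

theorem rt_five (hQ : QK K n r) (hn0 : 0 < n) {m : ℤ} (h : m = 5 ∨ m = -5 * n) :
    ∃ s : K, s ≠ 0 ∧ s ^ 2 = 5 * (m : K) := by
  have h5 : (5 : K) ≠ 0 := by norm_num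
  rcases h with rfl | rfl
  · refine ⟨5, h5, ?_⟩
    push_cast
    ring
  · obtain ⟨s, hs, h1⟩ := rt_one (m := -n) hQ hn0 (Or.inr rfl)
    refine ⟨5 * s, mul_ne_zero h5 hs, ?_⟩
    rw [mul_pow, h1]
    push_cast
    ring

end

/-- the kernel -/
theorem t_KER (hLTG : S_LTG) (hTOR : S_TOR) : S_KER := by
  intro K _ _ n r hC hQc hQ a b hc
  have hn0 : 0 < n := Nat.pos_of_ne_zero hC.1.ne_zero
  have ha0 : (a : K) ≠ 0 := by
    have : a ≠ 0 := by
      rintro rfl
      exact hc.sa.ne_zero rfl
    exact_mod_cast this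
  have hb0 : (b : K) ≠ 0 := by
    have : b ≠ 0 := by
      rintro rfl
      exact hc.sb.ne_zero rfl
    exact_mod_cast this
  rw [hLTG K (E0 K) 0 9 25 (isR_E0 K) (ne09 K) (ne025 K) (ne925 K) a b ha0 hb0]
  have three : (3 : K) ≠ 0 := by norm_num
  constructor
  · rintro (⟨h1, h2⟩ | ⟨x, u, v, w, hx0, hx1, hx2⟩)
    · have h3 := sqA hC hQ hc.sa h1
      have h4 := sqA hC hQ hc.sb h2
      omega
    · have hy : (a * b * u * v * w : K) ^ 2 = x * (x - 9) * (x - 25) := by
        rw [hx1, hx2]
        rw [sub_zero] at hx0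
        rw [hx0]
        ring
      rw [sub_zero] at hx0
      rcases (hTOR K n r hC hQc hQ).1 x _ hy with h | h | h | h | h
      · rw [h] at hx1 hx2
        have hv : v ≠ 0 := by
          rintro rfl
          norm_num at hx1
        have hw : w ≠ 0 := by
          rintro rfl
          norm_num at hx2
        have h3 := sqC hC hQ hc.sb (sqq (s := v) (t := 3) (by linear_combination hx1) hv)
        have h4 := sqA hC hQ hc.sa (sqq (c := (a : K)) (s := 3 * w) (t := 5 * v)
          (by linear_combination (-(a : K)) * w ^ 2 * hx1 + v ^ 2 * hx2) (mul_ne_zero three hw))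
        omega
      · rw [h] at hx0 hx2
        have hu : u ≠ 0 := by
          rintro rfl
          norm_num at hx0
        have hw : w ≠ 0 := by
          rintro rfl
          norm_num at hx2
        have h3 := sqA hC hQ hc.sa (sqq (c := (a : K)) (s := u) (t := 3)
          (by linear_combination -hx0) hu)
        have h4 := sqC hC hQ hc.sb (sqq (c := -(b : K)) (s := 3 * w) (t := 4 * u)
          (by linear_combination (-(b : K)) * w ^ 2 * hx0 + u ^ 2 * hx2) (mul_ne_zero three hw))
        omega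
      · rw [h] at hx0 hx1
        have hu : u ≠ 0 := by
          rintro rfl
          norm_num at hx0
        have hv : v ≠ 0 := by
          rintro rfl
          norm_num at hx1
        have h3 := sqA hC hQ hc.sa (sqq (c := (a : K)) (s := u) (t := 5)
          (by linear_combination -hx0) hu)
        have h4 := sqA hC hQ hc.sb (sqq (c := (b : K)) (s := v) (t := 4)
          (by linear_combination -hx1) hv)
        omega
      · rw [h] at hx0 hx1
        have hu : u ≠ 0 := by
          rintro rfl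
          norm_num at hx0
        have hv : v ≠ 0 := by
          rintro rfl
          norm_num at hx1
        have h3 := sqB hC hQ hc.sa (sqq (c := 5 * (a : K)) (s := u) (t := 5)
          (by linear_combination -5 * hx0) hu)
        have h4 := sqC hC hQ hc.sb (sqq (c := -(b : K)) (s := v) (t := 2)
          (by linear_combination hx1) hv)
        omega
      · rw [h] at hx0 hx1
        have hu : u ≠ 0 := by
          rintro rfl
          norm_num at hx0
        have hv : v ≠ 0 := by
          rintro rfl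
          norm_num at hx1
        have h3 := sqB hC hQ hc.sa (sqq (c := 5 * (a : K)) (s := u) (t := 15)
          (by linear_combination -5 * hx0) hu)
        have h4 := sqA hC hQ hc.sb (sqq (c := (b : K)) (s := v) (t := 6)
          (by linear_combination -hx1) hv)
        omega
  · rintro ⟨h1, h2⟩
    have h1' : (a = 1 ∨ a = -n) ∨ (a = 5 ∨ a = -5 * n) := by tauto
    have h2' : (b = 1 ∨ b = -n) ∨ (b = -1 ∨ b = n) := by tauto
    rcases h1' with h3 | h3 <;> rcases h2' with h4 | h4
    · obtain ⟨s, hs, e1⟩ := rt_one hQ hn0 h3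
      obtain ⟨t, ht, e2⟩ := rt_one hQ hn0 h4
      exact Or.inl ⟨⟨s, by rw [← e1]; ring⟩, ⟨t, by rw [← e2]; ring⟩⟩
    · obtain ⟨s, hs, e1⟩ := rt_one hQ hn0 h3
      obtain ⟨t, ht, e2⟩ := rt_neg hQ hn0 h4
      have e3 : (b : K) = -t ^ 2 := by rw [e2]; ring
      refine Or.inr ⟨0, 0, 3 / t, 5 / (s * t), by ring, ?_, ?_⟩
      · rw [e3]
        field_simp
        ring
      · rw [← e1, e3]
        field_simp
        ring
    · obtain ⟨s, hs, e1⟩ := rt_five hQ hn0 h3
      obtain ⟨t, ht, e2⟩ := rt_one hQ hn0 h4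
      have e3 : (a : K) = s ^ 2 / 5 := by rw [e1]; field_simp
      refine Or.inr ⟨45, 15 / s, 6 / t, 10 / (s * t), ?_, ?_, ?_⟩
      · rw [e3]
        field_simp
        ring
      · rw [← e2]
        field_simp
        ring
      · rw [e3, ← e2]
        field_simp
        ring
    · obtain ⟨s, hs, e1⟩ := rt_five hQ hn0 h3
      obtain ⟨t, ht, e2⟩ := rt_neg hQ hn0 h4
      have e3 : (a : K) = s ^ 2 / 5 := by rw [e1]; field_simp
      have e4 : (b : K) = -t ^ 2 := by rw [e2]; ring
      refine Or.inr ⟨5, 5 / s, 2 / t, 10 / (s * t), ?_, ?_, ?_⟩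
      · rw [e3]
        field_simp
        ring
      · rw [e4]
        field_simp
        ring
      · rw [e3, e4]
        field_simp
        ring

end Pool.Agent.Run7.h289.XK
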