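import Pool.Agent.Run7.h289.XK.Bas

/-!
# Project XK, the piece RAT
-/

set_option autoImplicit false

open NumberField IsDedekindDomain WeierstrassCurve

namespace Pool.Agent.Run7.h289.XK

open Pool.Agent.TH841.SH.D (Pt act Gal Coch IsCoc IsCob LocTriv cob)
open Pool.Agent.TH841.NF.D (Sha IsShaCoc shaCoc)
open Pool.Agent.TH841.SH (IsR)
open Run7.h135.XK

theorem isR_E0 (k : Type) [Field k] : IsR (E0 k) 0 9 25 :=
  ⟨rfl, by show (-34 : k) = _; ring, rfl, by show (225 : k) = _; ring,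
    by show (0 : k) = _; ring⟩

theorem ne09 (k : Type) [Field k] [CharZero k] : (0 : k) ≠ 9 := by norm_num

theorem ne025 (k : Type) [Field k] [CharZero k] : (0 : k) ≠ 25 := by norm_num

theorem ne925 (k : Type) [Field k] [CharZero k] : (9 : k) ≠ 25 := by norm_num

/-- the norm is not zero -/
theorem norm_ne {K : Type} [Field K] [CharZero K] {n : ℕ} {r : K} (hn : 0 < n) (h : QK K n r)
    {u v : ℚ} (hx : (u : K) + v * r ≠ 0) : u ^ 2 + n * v ^ 2 ≠ 0 := by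
  intro h0
  have hn' : (0 : ℚ) < n := by exact_mod_cast hn
  have h1 : u ^ 2 = 0 := by nlinarith [sq_nonneg u, sq_nonneg v, mul_nonneg hn'.le (sq_nonneg v)]
  have hu : u = 0 := pow_eq_zero_iff (two_ne_zero) |>.1 h1
  have h2 : (n : ℚ) * v ^ 2 = 0 := by rw [h1, zero_add] at h0; exact h0
  have hv : v = 0 := pow_eq_zero_iff (two_ne_zero) |>.1 ((mul_eq_zero.1 h2).resolve_left hn'.ne')
  apply hx
  rw [hu, hv]
  simp

/-- every element of order two is rational -/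
theorem t_RAT (hCAD : S_CAD) (hREP : S_REP) (hCOR : S_COR) (hSELQ : S_SELQ) (hHN : S_HN) :
    S_RAT := by
  intro K _ _ n r hC hQ x hx
  have hn0 : 0 < n := Nat.pos_of_ne_zero hC.1.ne_zero
  have hR := isR_E0 K
  obtain ⟨c1, c2, c3⟩ := hCAD K (E0 K) 0 9 25 hR (ne09 K) (ne025 K) (ne925 K)
  obtain ⟨f, hf, rfl⟩ := exists_cl x
  have h2 := (two_cl hf).1 hx
  obtain ⟨α, β, hα, hβ, hcob⟩ := hREP K (E0 K) 0 9 25 hR (ne09 K) (ne025 K) (ne925 K) f hf.1 h2
  have hsh := sha_of_cob hf (c1 α β hα hβ).1 hcob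
  obtain ⟨u, v, rfl⟩ := hQ.gen α
  obtain ⟨u', v', rfl⟩ := hQ.gen β
  have h3 := hCOR K n r hC hQ u v u' v' hα hβ hsh
  have hN1 := norm_ne hn0 hQ hα
  have hN2 := norm_ne hn0 hQ hβ
  obtain ⟨h4, h5⟩ := hSELQ _ _ hN1 hN2 h3
  obtain ⟨h6, h7⟩ := hHN n hC
  have h8 := h4.resolve_right (h7 u v hN1).1
  have h9 := h5.resolve_right (h7 u' v' hN2).2
  obtain ⟨a, g, ha, hg, hag⟩ := h6 K r hQ u v hα h8
  obtain ⟨b, g', hb, hg', hbg⟩ := h6 K r hQ u' v' hβ h9
  obtain ⟨m, c, hm, hc, ham⟩ := exists_sf ha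
  obtain ⟨m', c', hm', hc', hbm⟩ := exists_sf hb
  have hm0 : (m : K) ≠ 0 := by
    have : m ≠ 0 := by
      rintro rfl
      exact hm.ne_zero rfl
    exact_mod_cast this
  have hm0' : (m' : K) ≠ 0 := by
    have : m' ≠ 0 := by
      rintro rfl
      exact hm'.ne_zero rfl
    exact_mod_cast this
  have hcK : (c : K) ≠ 0 := by exact_mod_cast hc
  have hcK' : (c' : K) ≠ 0 := by exact_mod_cast hc'
  have e1 : (u : K) + v * r = (m : K) * ((c : K) * g) ^ 2 := by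
    rw [hag, ham]
    push_cast
    ring
  have e2 : (u' : K) + v' * r = (m' : K) * ((c' : K) * g') ^ 2 := by
    rw [hbg, hbm]
    push_cast
    ring
  have e3 : Cc (E0 K) 0 9 ((u : K) + v * r) ((u' : K) + v' * r) = Cc (E0 K) 0 9 (m : K) (m' : K) := by
    rw [e1, e2]
    exact c3 _ _ _ _ hm0 hm0' (mul_ne_zero hcK hg) (mul_ne_zero hcK' hg')
  have hsh' : IsShaCoc (E0 K) (Cc (E0 K) 0 9 (m : K) (m' : K)) := by
    rw [← e3]
    exact hsh
  refine ⟨m, m', hm, hm', hsh', ?_⟩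
  rw [cl_eq, ← e3]
  exact hcob

end Pool.Agent.Run7.h289.XK
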