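import Pool.Agent.Run7.h135.XK.Stm

/-!
# Project XK: tools for the pieces RAT, KER, ALG
-/

set_option autoImplicit false

open NumberField IsDedekindDomain WeierstrassCurve

namespace Pool.Agent.Run7.h289.XK

open Pool.Agent.TH841.SH.D (Pt act Gal Coch IsCoc IsCob LocTriv cob)
open Pool.Agent.TH841.NF.D (Sha IsShaCoc shaCoc)
open Run7.h135.XK

theorem act_act {k : Type} [Field k] (W : WeierstrassCurve k) {F L M : Type} [Field F] [Field L]
    [Field M] [Algebra k F] [Algebra k L] [Algebra k M] (φ : F →ₐ[k] L) (ψ : L →ₐ[k] M)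
    (P : Pt W F) : act W ψ (act W φ P) = act W (ψ.comp φ) P := by
  rcases P with _ | ⟨x, y, h⟩
  · rfl
  · rfl

/-- a coboundary is locally trivial -/
theorem loc_of_cob {k : Type} [Field k] {W : WeierstrassCurve k} {f : Coch W} (h : IsCob W f)
    (K : Type) [Field K] [Algebra k K] : LocTriv W K f := by
  obtain ⟨P, hP⟩ := h
  intro ι
  refine ⟨act W ι P, fun τ σ hs => ?_⟩
  rw [hP, map_sub, act_act, act_act]
  have e : ι.comp σ.toAlgHom = (τ.toAlgHom.restrictScalars k).comp ι :=
    AlgHom.ext fun x => (hs x).symm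
  rw [e]

theorem coc_of_cob {k : Type} [Field k] {W : WeierstrassCurve k} {f : Coch W} (h : IsCob W f)
    (hc : IsLocallyConstant f) : IsCoc W f := by
  obtain ⟨P, hP⟩ := h
  refine ⟨hc, fun σ τ => ?_⟩
  rw [hP, hP σ, hP τ, map_sub, act_act]
  have e : (σ * τ).toAlgHom = σ.toAlgHom.comp τ.toAlgHom := rfl
  rw [e]
  abel

section

variable {F : Type} [Field F] [NumberField F] {W : WeierstrassCurve F}

theorem cl_eq {f g : Coch W} (hf : IsShaCoc W f) (hg : IsShaCoc W g) :
    cl f hf = cl g hg ↔ IsCob W (f - g) := by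
  have h : cl f hf = cl g hg ↔ -(⟨f, hf⟩ : shaCoc W) + ⟨g, hg⟩ ∈ (cob W).addSubgroupOf (shaCoc W) :=
    QuotientAddGroup.eq
  rw [h, AddSubgroup.mem_addSubgroupOf]
  have e : ((-(⟨f, hf⟩ : shaCoc W) + ⟨g, hg⟩ : shaCoc W) : Coch W) = -(f - g) := by
    show -f + g = -(f - g)
    abel
  rw [e]
  exact (cob W).neg_mem_iff

theorem exists_cl (x : Sha W) : ∃ (f : Coch W) (hf : IsShaCoc W f), x = cl f hf := by
  obtain ⟨⟨f, hf⟩, rfl⟩ := QuotientAddGroup.mk_surjective x
  exact ⟨f, hf, rfl⟩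

theorem cl_add {f g : Coch W} (hf : IsShaCoc W f) (hg : IsShaCoc W g) (hfg : IsShaCoc W (f + g)) :
    cl (f + g) hfg = cl f hf + cl g hg := rfl

theorem sha_add {f g : Coch W} (hf : IsShaCoc W f) (hg : IsShaCoc W g) : IsShaCoc W (f + g) :=
  (shaCoc W).add_mem hf hg

theorem sha_zero : IsShaCoc W (0 : Coch W) := (shaCoc W).zero_mem

theorem cl_zero : cl (0 : Coch W) sha_zero = 0 := rfl

theorem cl_eq_zero {f : Coch W} (hf : IsShaCoc W f) : cl f hf = 0 ↔ IsCob W f := by
  rw [← cl_zero, cl_eq, sub_zero]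

theorem two_cl {f : Coch W} (hf : IsShaCoc W f) : 2 • cl f hf = 0 ↔ IsCob W (f + f) := by
  rw [two_nsmul, ← cl_add hf hf (sha_add hf hf), cl_eq_zero]

theorem sha_of_cob {f g : Coch W} (hf : IsShaCoc W f) (hg : IsCoc W g) (h : IsCob W (f - g)) :
    IsShaCoc W g := by
  have e : g = f + -(f - g) := by abel
  have hn : IsCob W (-(f - g)) := (cob W).neg_mem h
  refine ⟨hg, fun v => ?_, fun v => ?_⟩
  · rw [e]
    exact Pool.Agent.TH841.SH.D.loc_add (hf.2.1 v) (loc_of_cob hn _)
  · rw [e]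
    exact Pool.Agent.TH841.SH.D.loc_add (hf.2.2 v) (loc_of_cob hn _)

end

/-- a rational number is a squarefree integer times a square -/
theorem exists_sf {a : ℚ} (ha : a ≠ 0) : ∃ (m : ℤ) (c : ℚ), Squarefree m.natAbs ∧ c ≠ 0 ∧
    a = m * c ^ 2 := by
  have h0 : a.num * a.den ≠ 0 := mul_ne_zero (Rat.num_ne_zero.2 ha) (by exact_mod_cast a.den_ne_zero)
  obtain ⟨t, s, -, hs, hst, ht⟩ := Nat.sq_mul_squarefree_of_pos (Int.natAbs_pos.2 h0)
  have hs' : (s : ℚ) ≠ 0 := by exact_mod_cast hs.ne'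
  have hd' : (a.den : ℚ) ≠ 0 := by exact_mod_cast a.den_ne_zero
  have key : a * (a.den : ℚ) ^ 2 = (a.num * a.den : ℤ) := by
    push_cast
    have h1 := Rat.mul_den_eq_num a
    calc a * (a.den : ℚ) ^ 2 = (a * a.den) * a.den := by ring
      _ = _ := by rw [h1]
  have hsig : (a.num * a.den : ℤ) = (a.num * a.den : ℤ).sign * (((s ^ 2 * t : ℕ) : ℤ)) := by
    rw [hst]
    exact (Int.sign_mul_natAbs _).symm
  refine ⟨(a.num * a.den : ℤ).sign * t, s / a.den, ?_, div_ne_zero hs' hd', ?_⟩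
  · rw [Int.natAbs_mul, Int.natAbs_sign_of_ne_zero h0, one_mul, Int.natAbs_natCast]
    exact ht
  · rw [hsig] at key
    push_cast at key ⊢
    field_simp
    linear_combination key

/-- two squarefree numbers whose product is a square are equal -/
theorem sf_eq {s t : ℕ} (hs : Squarefree s) (ht : Squarefree t) (h : IsSquare (s * t)) : s = t := by
  have key : ∀ s t : ℕ, Squarefree s → IsSquare (s * t) → s.primeFactors ⊆ t.primeFactors ∨ t = 0 := by
    intro s t hs h
    by_cases ht0 : t = 0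
    · exact Or.inr ht0
    left
    intro p hp
    rw [Nat.mem_primeFactors] at hp
    have hpr := hp.1
    obtain ⟨z, hz⟩ := h
    have h1 : p ∣ z * z := hz ▸ hp.2.1.mul_right t
    have h2 : p ∣ z := (hpr.dvd_mul.1 h1).elim id id
    have h3 : p * p ∣ s * t := by
      rw [hz]
      exact mul_dvd_mul h2 h2
    rw [Nat.mem_primeFactors]
    refine ⟨hpr, ?_, ht0⟩
    by_contra h4
    have h5 : Nat.Coprime (p * p) t :=
      Nat.Coprime.mul_left ((Nat.Prime.coprime_iff_not_dvd hpr).2 h4)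
        ((Nat.Prime.coprime_iff_not_dvd hpr).2 h4)
    have h6 := h5.dvd_of_dvd_mul_right h3
    exact hpr.one_lt.ne' (Nat.isUnit_iff.1 (hs p h6))
  have h1 := (key s t hs h).resolve_right ht.ne_zero
  have h2 := (key t s ht (by rwa [mul_comm] at h)).resolve_right hs.ne_zero
  rw [← Nat.prod_primeFactors_of_squarefree hs, ← Nat.prod_primeFactors_of_squarefree ht,
    Finset.Subset.antisymm h1 h2]

/-- a rational number which is a square in `K` -/
theorem sq_K {K : Type} [Field K] [CharZero K] {n : ℕ} {r : K} (hn : 0 < n) (h : QK K n r) {m : ℚ}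
    (hm : IsSquare (m : K)) : IsSquare m ∨ IsSquare (-(n : ℚ) * m) := by
  obtain ⟨x, hx⟩ := hm
  obtain ⟨u, v, rfl⟩ := h.gen x
  have h1 : (m : K) = (u : K) ^ 2 - n * (v : K) ^ 2 + 2 * u * v * r := by
    linear_combination hx + (v : K) ^ 2 * h.sq
  by_cases huv : u * v = 0
  · rcases mul_eq_zero.1 huv with h2 | h2
    · right
      subst h2
      refine ⟨n * v, ?_⟩
      have h3 : (m : K) = ((-(n : ℚ) * v ^ 2 : ℚ) : K) := by
        push_cast
        linear_combination h1
      have h4 : m = -(n : ℚ) * v ^ 2 := Rat.cast_injective h3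
      rw [h4]
      ring
    · left
      subst h2
      refine ⟨u, ?_⟩
      have h3 : (m : K) = ((u * u : ℚ) : K) := by
        push_cast
        linear_combination h1
      exact Rat.cast_injective h3
  · exfalso
    have hr : r = (((m - u ^ 2 + n * v ^ 2) / (2 * (u * v)) : ℚ) : K) := by
      have h5 : (2 * ((u : K) * v)) ≠ 0 := by
        have : ((2 * (u * v) : ℚ) : K) ≠ 0 := by
          rw [Rat.cast_ne_zero]
          exact mul_ne_zero two_ne_zero huv
        push_cast at this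
        exact this
      push_cast
      rw [eq_div_iff h5]
      linear_combination -h1
    have h6 := h.sq
    rw [hr] at h6
    have h7 : ((((m - u ^ 2 + n * v ^ 2) / (2 * (u * v))) ^ 2 : ℚ) : K) = ((-(n : ℚ) : ℚ) : K) := by
      push_cast
      push_cast at h6
      exact h6
    have h8 := Rat.cast_injective h7
    have h9 : (0 : ℚ) ≤ -(n : ℚ) := by
      rw [← h8]
      positivity
    have h10 : (0 : ℚ) < n := by exact_mod_cast hn
    linarith

/-- a squarefree integer `m` with `s m` a rational square, `s` squarefree -/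
theorem sf_int {s : ℕ} {m : ℤ} (hs : Squarefree s) (hm : Squarefree m.natAbs)
    (h : IsSquare ((s : ℚ) * m)) : m = s := by
  have h1 : IsSquare ((s : ℤ) * m) := by
    rw [← Rat.isSquare_intCast_iff]
    push_cast
    exact h
  obtain ⟨z, hz⟩ := h1
  have hs0 : (0 : ℤ) < s := by exact_mod_cast hs.ne_zero.bot_lt
  have h2 : 0 ≤ m := by
    by_contra h3
    have h4 : (s : ℤ) * m < 0 := mul_neg_of_pos_of_neg hs0 (not_le.1 h3)
    rw [hz] at h4
    exact absurd h4 (not_lt.2 (mul_self_nonneg z))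
  obtain ⟨t, rfl⟩ := Int.eq_ofNat_of_zero_le h2
  have h5 : IsSquare (s * t) := by
    refine ⟨z.natAbs, ?_⟩
    have h6 := congrArg Int.natAbs hz
    rw [Int.natAbs_mul, Int.natAbs_mul, Int.natAbs_natCast, Int.natAbs_natCast] at h6
    exact h6
  rw [Int.natAbs_natCast] at hm
  rw [sf_eq hs hm h5]

end Pool.Agent.Run7.h289.XK
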