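import Mathlib
import Pool.Agent.Helper620.Wg.KS
import Pool.Agent.Helper620.Wg.KI

/-!
# Project XK, the piece CPER: the area of the rectangle of the periods as an integral

A port of `Pool/Agent/Y474/PERC.lean` (the curve 11a1) to the rectangular lattice of `X_0(15)`.
-/

set_option autoImplicit false

open MeasureTheory Set Filter Topology Complex

namespace Pool.Agent.Run7.h289.XK.CPER

theorem det_mul (c : ℂ) :
    ((ContinuousLinearMap.toSpanSingleton ℂ c).restrictScalars ℝ).det = ‖c‖ ^ 2 := by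
  have : (((ContinuousLinearMap.toSpanSingleton ℂ c).restrictScalars ℝ : ℂ →L[ℝ] ℂ) : ℂ →ₗ[ℝ] ℂ) =
      ((LinearMap.toSpanSingleton ℂ ℂ c).restrictScalars ℝ) := by
    ext <;> simp
  rw [ContinuousLinearMap.det, this, LinearMap.det_restrictScalars]
  simp [Algebra.norm_complex_apply, Complex.normSq_eq_norm_sq]

theorem volume_rect (s t : Set ℝ) (hs : MeasurableSet s) (ht : MeasurableSet t) :
    volume (s ×ℂ t) = volume s * volume t := by
  have h1 : s ×ℂ t = Complex.measurableEquivRealProd ⁻¹' (s ×ˢ t) := by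
    ext z
    simp [Complex.mem_reProdIm, Complex.measurableEquivRealProd]
  rw [h1, Complex.volume_preserving_equiv_real_prod.measure_preimage
    (hs.prod ht).nullMeasurableSet]
  exact Measure.prod_prod s t

theorem null_re (a : ℝ) : volume {z : ℂ | z.re = a} = 0 := by
  have h1 : {z : ℂ | z.re = a} = {a} ×ℂ univ := by
    ext z
    simp [Complex.mem_reProdIm]
  rw [h1, volume_rect _ _ (measurableSet_singleton a) MeasurableSet.univ, Real.volume_singleton,
    zero_mul]

theorem null_im (a : ℝ) : volume {z : ℂ | z.im = a} = 0 := by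
  have h1 : {z : ℂ | z.im = a} = univ ×ℂ {a} := by
    ext z
    simp [Complex.mem_reProdIm]
  rw [h1, volume_rect _ _ MeasurableSet.univ (measurableSet_singleton a), Real.volume_singleton,
    mul_zero]

theorem s_perc (L : PeriodPair) (Op Om : ℝ) (hOp : 0 < Op) (hOm : 0 < Om)
    (hg2 : L.g₂ = 481 / 12) (hg3 : L.g₃ = 4879 / 216)
    (hL : ∀ w : ℂ, w ∈ L.lattice ↔ ∃ a b : ℤ, w = a * Op + b * Om * Complex.I) :
    ∫ x : ℂ, 1 / ‖4 * x ^ 3 + 5 * x ^ 2 - 38 * x - 39‖ = Op * Om / 2 := by
  set P := L.weierstrassP with hP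
  have hcub : ∀ z ∉ L.lattice, L.derivWeierstrassP z ^ 2 =
      4 * (P z - 5 / 12) ^ 3 + 5 * (P z - 5 / 12) ^ 2 - 38 * (P z - 5 / 12) - 39 := by
    intro z hz
    rw [L.derivWeierstrassP_sq z hz, hg2, hg3]
    ring
  set H : Set ℂ := Ioo 0 (Op / 2) ×ℂ Ioo (-(Om / 2)) (Om / 2) with hH
  have hmem : ∀ z : ℂ, z ∈ H ↔ (0 < z.re ∧ z.re < Op / 2) ∧ (-(Om / 2) < z.im ∧ z.im < Om / 2) := by
    intro z
    rw [hH, Complex.mem_reProdIm, mem_Ioo, mem_Ioo]
  set φ : ℂ → ℂ := fun z => P z - 5 / 12 with hφ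
  -- lattice points with small imaginary part
  have hsmall : ∀ w : ℂ, w ∈ L.lattice → -Om < w.im → w.im < Om → ∃ k : ℤ, w = k * Op := by
    intro w hw h1 h2
    obtain ⟨a, b, rfl⟩ := (hL w).1 hw
    simp only [add_im, mul_im, intCast_re, ofReal_im, mul_zero, intCast_im, ofReal_re, zero_mul,
      add_zero, mul_re, sub_zero, I_im, mul_one, I_re, zero_add] at h1 h2
    have hb : b = 0 := by
      by_contra hb
      rcases lt_or_gt_of_ne hb with h | h
      · have : (b : ℝ) ≤ -1 := by exact_mod_cast (by omega : b ≤ -1)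
        nlinarith
      · have : (1 : ℝ) ≤ b := by exact_mod_cast (by omega : 1 ≤ b)
        nlinarith
    subst hb
    refine ⟨a, ?_⟩
    push_cast
    ring
  have hnot : ∀ w : ℂ, 0 < w.re → w.re < Op → -Om < w.im → w.im < Om → w ∉ L.lattice := by
    intro w h1 h2 h3 h4 hw
    obtain ⟨k, hk⟩ := hsmall w hw h3 h4
    have h5 : w.re = k * Op := by
      rw [hk]
      simp
    rw [h5] at h1 h2
    have h6 : (0 : ℝ) < k := by
      by_contra hcon
      push Not at hcon
      nlinarith
    have h7 : (k : ℝ) < 1 := by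
      by_contra hcon
      push Not at hcon
      nlinarith
    have h8 : (0 : ℤ) < k := by exact_mod_cast h6
    have h9 : k < (1 : ℤ) := by exact_mod_cast h7
    omega
  have hH2 : ∀ z ∈ H, 2 * z ∉ L.lattice := by
    intro z hz
    rw [hmem] at hz
    apply hnot <;> simp <;> linarith [hz.1.1, hz.1.2, hz.2.1, hz.2.2]
  have hH1 : ∀ z ∈ H, z ∉ L.lattice := by
    intro z hz
    rw [hmem] at hz
    apply hnot <;> linarith [hz.1.1, hz.1.2, hz.2.1, hz.2.2]
  have hinj : InjOn φ H := by
    intro z hz w hw h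
    have h1 : P z = P w := by
      simp only [hφ] at h
      exact sub_left_inj.1 h
    have hz' := (hmem z).1 hz
    have hw' := (hmem w).1 hw
    rcases Wg.wp_inj L z w (hH1 z hz) (hH1 w hw) h1 with h2 | h2
    · obtain ⟨k, hk⟩ := hsmall _ h2 (by rw [sub_im]; linarith) (by rw [sub_im]; linarith)
      have h5 : z.re - w.re = k * Op := by
        rw [← sub_re, hk]
        simp
      have h6 : (-1 : ℝ) < k := by
        by_contra hcon
        push Not at hcon
        nlinarith
      have h7 : (k : ℝ) < 1 := by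
        by_contra hcon
        push Not at hcon
        nlinarith
      have h8 : (-1 : ℤ) < k := by exact_mod_cast h6
      have h9 : k < (1 : ℤ) := by exact_mod_cast h7
      have h10 : k = 0 := by omega
      rw [h10] at hk
      simpa [sub_eq_zero] using hk
    · exact absurd h2 (hnot _ (by rw [add_re]; linarith) (by rw [add_re]; linarith)
        (by rw [add_im]; linarith) (by rw [add_im]; linarith))
  -- the boundary
  set B : Set ℂ := {z : ℂ | (z.re = 0 ∨ z.re = Op / 2 ∨ z.re = -(Op / 2) ∨ z.im = Om / 2 ∨ z.im = -(Om / 2)) ∧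
    z ∉ L.lattice} with hB
  have hBnull : volume B = 0 := by
    have h1 : B ⊆ {z : ℂ | z.re = 0} ∪ ({z : ℂ | z.re = Op / 2} ∪ ({z : ℂ | z.re = -(Op / 2)} ∪
        ({z : ℂ | z.im = Om / 2} ∪ {z : ℂ | z.im = -(Om / 2)}))) := by
      intro z hz
      simpa using hz.1
    refine measure_mono_null h1 ?_
    simp only [measure_union_null_iff]
    exact ⟨null_re _, null_re _, null_re _, null_im _, null_im _⟩
  have hφd : ∀ z ∉ L.lattice, HasDerivAt φ (L.derivWeierstrassP z) z := by
    intro z hz
    have h1 := ((L.analyticOnNhd_weierstrassP z hz).differentiableAt).hasDerivAt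
    rw [L.deriv_weierstrassP] at h1
    exact h1.sub_const _
  have hφB : volume (φ '' B) = 0 := by
    apply addHaar_image_eq_zero_of_differentiableOn_of_addHaar_eq_zero _ _ hBnull
    intro z hz
    exact ((hφd z hz.2).hasFDerivAt.restrictScalars ℝ).differentiableAt.differentiableWithinAt
  have hcompl : (φ '' H)ᶜ ⊆ φ '' B := by
    intro x hx
    obtain ⟨z, hz, hzx⟩ := Wg.wp_surj L (x + 5 / 12)
    -- reduction
    obtain ⟨b, hb1, hb2⟩ : ∃ b : ℤ, -(Om / 2) ≤ z.im - b * Om ∧ z.im - b * Om ≤ Om / 2 := by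
      refine ⟨round (z.im / Om), ?_⟩
      have h1 := abs_le.1 (abs_sub_round (z.im / Om))
      have h2 : z.im - round (z.im / Om) * Om = (z.im / Om - round (z.im / Om)) * Om := by
        field_simp
      rw [h2]
      constructor <;> nlinarith
    obtain ⟨a, ha1, ha2⟩ : ∃ a : ℤ, -(Op / 2) ≤ z.re - a * Op ∧ z.re - a * Op ≤ Op / 2 := by
      refine ⟨round (z.re / Op), ?_⟩
      have h1 := abs_le.1 (abs_sub_round (z.re / Op))
      have h2 : z.re - round (z.re / Op) * Op = (z.re / Op - round (z.re / Op)) * Op := by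
        field_simp
      rw [h2]
      constructor <;> nlinarith
    have hl : (a : ℂ) * Op + (b : ℂ) * Om * I ∈ L.lattice := (hL _).2 ⟨a, b, rfl⟩
    set w : ℂ := z - ((a : ℂ) * Op + (b : ℂ) * Om * I) with hw
    have hwP : P w = x + 5 / 12 := by
      rw [hw, ← hzx]
      exact L.weierstrassP_sub_coe z ⟨_, hl⟩
    have hwL : w ∉ L.lattice := by
      intro h
      apply hz
      have := add_mem h hl
      rwa [hw, sub_add_cancel] at this
    have hwre : w.re = z.re - a * Op := by
      rw [hw]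
      simp
    have hwim : w.im = z.im - b * Om := by
      rw [hw]
      simp
    rw [← hwim] at hb1 hb2
    rw [← hwre] at ha1 ha2
    by_cases hwB : w.re = 0 ∨ w.re = Op / 2 ∨ w.re = -(Op / 2) ∨ w.im = Om / 2 ∨ w.im = -(Om / 2)
    · refine ⟨w, ⟨hwB, hwL⟩, ?_⟩
      simp only [hφ, hwP]
      ring
    · exfalso
      push Not at hwB
      obtain ⟨h1, h2, h3, h4, h5⟩ := hwB
      apply hx
      rcases lt_or_gt_of_ne h1 with h6 | h6
      · refine ⟨-w, ?_, ?_⟩
        · rw [hmem, neg_re, neg_im]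
          refine ⟨⟨by linarith, ?_⟩, ?_, ?_⟩
          · have := lt_of_le_of_ne ha1 (Ne.symm h3)
            linarith
          · have := lt_of_le_of_ne hb2 h4
            linarith
          · have := lt_of_le_of_ne hb1 (Ne.symm h5)
            linarith
        · simp only [hφ]
          rw [hP, L.weierstrassP_neg, ← hP, hwP]
          ring
      · refine ⟨w, ?_, ?_⟩
        · rw [hmem]
          exact ⟨⟨h6, lt_of_le_of_ne ha2 h2⟩, lt_of_le_of_ne hb1 (Ne.symm h5),
            lt_of_le_of_ne hb2 h4⟩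
        · simp only [hφ, hwP]
          ring
  have hnull : volume (φ '' H)ᶜ = 0 := measure_mono_null hcompl hφB
  have hHm : MeasurableSet H := (isOpen_Ioo.reProdIm isOpen_Ioo).measurableSet
  have hres : volume.restrict (φ '' H) = volume :=
    Measure.restrict_eq_self_of_ae_mem (ae_iff.2 hnull)
  rw [← hres, integral_image_eq_integral_abs_det_fderiv_smul volume hHm
    (f' := fun z => (ContinuousLinearMap.toSpanSingleton ℂ (L.derivWeierstrassP z)).restrictScalars ℝ)
    (fun z hz => ((hφd z (hH1 z hz)).hasFDerivAt.restrictScalars ℝ).hasFDerivWithinAt) hinj]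
  have hone : ∀ z ∈ H, |((ContinuousLinearMap.toSpanSingleton ℂ
      (L.derivWeierstrassP z)).restrictScalars ℝ).det| •
      (1 / ‖4 * φ z ^ 3 + 5 * φ z ^ 2 - 38 * φ z - 39‖) = (1 : ℝ) := by
    intro z hz
    rw [det_mul, ← hcub z (hH1 z hz), norm_pow, abs_of_nonneg (by positivity), smul_eq_mul]
    have h1 : ‖L.derivWeierstrassP z‖ ≠ 0 := norm_ne_zero_iff.2 (Wg.wpd_ne L z (hH2 z hz))
    field_simp
  rw [setIntegral_congr_fun hHm hone, setIntegral_const, smul_eq_mul, mul_one, Measure.real,
    hH, volume_rect _ _ measurableSet_Ioo measurableSet_Ioo, Real.volume_Ioo, Real.volume_Ioo,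
    ENNReal.toReal_mul, ENNReal.toReal_ofReal (by linarith), ENNReal.toReal_ofReal (by linarith)]
  ring

end Pool.Agent.Run7.h289.XK.CPER
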