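import Pool.Agent.Run7.h289.D18.Jw
import Pool.Agent.Run7.h289.D18.Fn
import Pool.Agent.Run7.h555.XK.Def

/-!
# Project XK: the density
-/

set_option autoImplicit false

open Filter Topology

namespace Pool.Agent.Run7.h289.XK

open Pool.Agent.Run7.h289.D18
open Run7.h555.XK (Cl)
open Pool.Agent.N969.P15 (Qc)

theorem tw_one (n : ℕ) : Pool.Agent.Run7.h238.J.tw 1 n = n := by
  have h := Pool.Agent.Run7.h289.D18.tw_mul 1 n
  rw [Nat.gcd_one_left, one_pow, mul_one, one_mul] at h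
  exact h

/-- the periodic condition -/
def P60 (n : ℕ) : Prop := n % 60 = 23 ∨ n % 60 = 47

theorem gk0 : Run7.h843.L.gk 0 = ∏' i : ℕ, (1 - (1 / 2 : ℝ) ^ (i + 1)) := by
  have h : Run7.h843.L.gk 0 = (∏' i : ℕ, (1 - (1 / 2 : ℝ) ^ (i + 1))) /
      (2 ^ (0 ^ 2) * (∏ i ∈ Finset.range 0, (1 - (1 / 2 : ℝ) ^ (i + 1))) ^ 2) := by
    rw [Run7.h843.L.gk_eq]
    rfl
  rw [h]
  simp

theorem prp0 : Prp Cl Qc (∏' i : ℕ, (1 - (1 / 2 : ℝ) ^ (i + 1))) := by
  have h := prp_J (M := 1) (fun _ => 0) (fun _ => 1) (fun i j _ => Subsingleton.elim i j)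
    (fun _ => squarefree_one) (fun _ => rfl) 120 (by norm_num) (by norm_num) P60
    (fun n => by unfold P60; omega) (fun n hn => by unfold P60 at hn; omega) 23
    (by unfold P60; norm_num) (by norm_num)
  have e : (∏ i : Fin 1, Run7.h843.L.gk ((fun _ : Fin 1 => 0) i)) =
      ∏' i : ℕ, (1 - (1 / 2 : ℝ) ^ (i + 1)) := by
    rw [Fin.prod_univ_one]
    exact gk0
  rw [e] at h
  refine Prp.congr (fun n => Iff.rfl) (fun n hn => ?_) h
  have h1 : 1 < n := by
    have := hn.2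
    unfold P60 at this
    omega
  rw [← Nf_two h1]
  constructor
  · intro h2
    have h3 := h2 0
    rw [tw_one] at h3
    exact h3
  · intro h2 i
    rw [tw_one]
    exact h2

/-- **exactly the proportion `η` of the class satisfies the criterion** -/
theorem t_DENS : Tendsto (fun X : ℕ => (Nat.card {n : ℕ // n ≤ X ∧ Cl n ∧ Qc n} : ℝ) /
    (Nat.card {n : ℕ // n ≤ X ∧ Cl n} : ℝ)) atTop (𝓝 (∏' i : ℕ, (1 - (1 / 2 : ℝ) ^ (i + 1)))) := by
  have h := prp0
  unfold Prp nm at h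
  refine h.congr fun X => ?_
  have e : Nat.card {m : ℕ // m ≤ X ∧ Cl m ∧ True} = Nat.card {m : ℕ // m ≤ X ∧ Cl m} :=
    Nat.card_congr (Equiv.subtypeEquivRight fun m => by rw [and_true])
  rw [e]

/-- the class has positive lower density -/
theorem low_Cl : ∃ α : ℝ, 0 < α ∧ ∀ᶠ X : ℕ in atTop,
    α * X ≤ (Nat.card {n : ℕ // n ≤ X ∧ Cl n} : ℝ) := by
  obtain ⟨α, hα, h3⟩ := low_nm 120 (by norm_num) (by norm_num) P60
    (fun n => by unfold P60; omega) 23 (by unfold P60; norm_num) (by norm_num)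
  refine ⟨α, hα, h3.mono fun X hX => ?_⟩
  have e : Nat.card {m : ℕ // m ≤ X ∧ Cl m} = nm (fun n => Squarefree n ∧ P60 n) (fun _ => True) X :=
    Nat.card_congr (Equiv.subtypeEquivRight fun m => by rw [and_true]; rfl)
  rw [e]
  exact hX

end Pool.Agent.Run7.h289.XK
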