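import Pool.Agent.Run7.h555.XK.Stm

/-!
# Project XK, piece SPL (helper289): split multiplicative reduction

The first half of the proof is the one of `Run7/h483/NF/MUL` (helper483).
-/

set_option autoImplicit false
set_option linter.unusedVariables false
set_option linter.unusedSectionVars false

namespace Pool.Agent.Run7.h289.XK

open NumberField IsDedekindDomain WeierstrassCurve
open Pool.Agent.W189.NF (aV eV aLoc eLoc)
open Pool.Agent.Y698 (v_unit)
open IsDiscreteValuationRing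

/-- a square `-c₄ c₆` makes the reduction split -/
theorem sq_split {k : Type} [Field k] (a₁ a₂ b₂ b₄ b₆ c₄ c₆ : k) (hb : b₂ = a₁ ^ 2 + 4 * a₂)
    (h4 : c₄ = b₂ ^ 2 - 24 * b₄) (h6 : c₆ = -b₂ ^ 3 + 36 * b₂ * b₄ - 216 * b₆) (hc : c₄ ≠ 0)
    (h2 : (2 : k) ≠ 0) (h : IsSquare (-(c₄ * c₆))) :
    Polynomial.Splits (Polynomial.C c₄ * Polynomial.X ^ 2 +
      Polynomial.C (a₁ * c₄) * Polynomial.X -
      Polynomial.C (54 * b₆ - 3 * b₂ * b₄ + a₂ * c₄)) := by
  obtain ⟨t, ht⟩ := h
  have hd : (Polynomial.C c₄ * Polynomial.X ^ 2 +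
      Polynomial.C (a₁ * c₄) * Polynomial.X -
      Polynomial.C (54 * b₆ - 3 * b₂ * b₄ + a₂ * c₄)).degree = 2 := by
    have e : (Polynomial.C c₄ * Polynomial.X ^ 2 +
      Polynomial.C (a₁ * c₄) * Polynomial.X -
      Polynomial.C (54 * b₆ - 3 * b₂ * b₄ + a₂ * c₄)) = (Polynomial.C c₄ * Polynomial.X ^ 2 +
      Polynomial.C (a₁ * c₄) * Polynomial.X +
      Polynomial.C (-(54 * b₆ - 3 * b₂ * b₄ + a₂ * c₄))) := by
      rw [Polynomial.C_neg, sub_eq_add_neg]
    rw [e]
    exact Polynomial.degree_quadratic hc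
  refine Polynomial.Splits.of_degree_eq_two (x := (t - a₁ * c₄) / (2 * c₄)) hd ?_
  simp only [Polynomial.eval_sub, Polynomial.eval_add, Polynomial.eval_mul, Polynomial.eval_C,
    Polynomial.eval_pow, Polynomial.eval_X]
  have h2c : 2 * c₄ ≠ 0 := mul_ne_zero h2 hc
  set x : k := (t - a₁ * c₄) / (2 * c₄) with hx
  have hx' : 2 * c₄ * x = t - a₁ * c₄ := by
    rw [hx]
    field_simp
  have hft : (4 * c₄) * (c₄ * x ^ 2 + a₁ * c₄ * x - (54 * b₆ - 3 * b₂ * b₄ + a₂ * c₄)) = 0 := by
    have e1 : (4 * c₄) * (c₄ * x ^ 2 + a₁ * c₄ * x) =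
        (2 * c₄ * x + a₁ * c₄) ^ 2 - (a₁ * c₄) ^ 2 := by ring
    have e2 : 2 * c₄ * x + a₁ * c₄ = t := by rw [hx']; ring
    rw [mul_sub, e1, e2, show t ^ 2 = -(c₄ * c₆) by rw [ht]; ring]
    subst hb h6
    linear_combination -(c₄ * (a₁ ^ 2 + 4 * a₂)) * h4
  rcases mul_eq_zero.1 hft with h | h
  · exfalso
    have h4' : (4 : k) ≠ 0 := by
      rw [show (4 : k) = 2 * 2 by norm_num]
      exact mul_ne_zero h2 h2
    exact mul_ne_zero h4' hc h
  · exact h

/-- **SPL** -/
theorem t_SPL : Run7.h555.XK.S_SPL := by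
  intro R _ _ _ L _ _ _ W₀ h2R hΔu hΔ0 hc4 hsq
  set W := W₀.map (algebraMap R L) with hW
  set v := (maximalIdeal R).valuation L with hv
  obtain ⟨C, hC⟩ : ∃ C : VariableChange L, W.minimal R = C • W := ⟨_, rfl⟩
  set u : L := ((C.u⁻¹ : Lˣ) : L) with hu
  have hd : (W.minimal R).Δ = u ^ 12 * W.Δ := by rw [hC, variableChange_Δ]
  have h4 : (W.minimal R).c₄ = u ^ 4 * W.c₄ := by rw [hC, variableChange_c₄]
  have h6 : (W.minimal R).c₆ = u ^ 6 * W.c₆ := by rw [hC, variableChange_c₆]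
  have hWint : IsIntegral R W := ⟨⟨W₀, hW⟩⟩
  have hmin : IsMinimal R (W.minimal R) := inferInstance
  have hWΔ : W.Δ = algebraMap R L W₀.Δ := by rw [hW, map_Δ]
  have hW4 : W.c₄ = algebraMap R L W₀.c₄ := by rw [hW, map_c₄]
  have hW6 : W.c₆ = algebraMap R L W₀.c₆ := by rw [hW, map_c₆]
  have hvW4 : v W.c₄ = 1 := by
    rw [hW4]
    exact v_unit R hc4
  have hvΔ1 : v W.Δ < 1 := by
    rw [hWΔ, hv, HeightOneSpectrum.valuation_lt_one_iff_mem]
    exact (IsLocalRing.mem_maximalIdeal _).2 hΔu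
  have hΔne : W.Δ ≠ 0 := by
    rw [hWΔ]
    exact (map_ne_zero_iff _ (IsFractionRing.injective R L)).2 hΔ0
  -- `v u ≤ 1`
  have k1 : v (W.minimal R).c₄ ≤ 1 := by
    rw [← integralModel_c₄_eq R (W.minimal R)]
    exact HeightOneSpectrum.valuation_le_one _ _
  have k2 : v u ≤ 1 := by
    rw [h4, map_mul, hvW4, mul_one, map_pow] at k1
    exact (pow_le_one_iff (by norm_num)).1 k1
  -- `1 ≤ v u`
  have k3 : v W.Δ ≤ v (W.minimal R).Δ := by
    obtain ⟨h1, h2⟩ := hmin.val_Δ_maximal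
    have e1 : C⁻¹ • W.minimal R = W := by rw [hC, inv_smul_smul]
    have h3 := h2 (j := C⁻¹) (by simp only [e1]; exact hWint)
    simp only [e1, one_smul] at h3
    by_contra hcon
    rw [not_le] at hcon
    have hle : valuation_Δ_aux R (W.minimal R) ≤ valuation_Δ_aux R W := by
      rw [← Subtype.coe_le_coe, valuation_Δ_aux_eq_of_isIntegral R W,
        valuation_Δ_aux_eq_of_isIntegral R (W.minimal R)]
      exact hcon.le
    have h5 := congrArg Subtype.val (le_antisymm hle (h3 hle))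
    rw [valuation_Δ_aux_eq_of_isIntegral, valuation_Δ_aux_eq_of_isIntegral] at h5
    exact hcon.ne h5
  have k4 : v u = 1 := by
    refine le_antisymm k2 ?_
    rw [hd, map_mul, map_pow] at k3
    have h0 : v W.Δ ≠ 0 := (Valuation.ne_zero_iff _).2 hΔne
    by_contra hcon
    rw [not_le] at hcon
    have h7 : v u ^ 12 < 1 := pow_lt_one' hcon (by norm_num)
    have h8 : v u ^ 12 * v W.Δ < 1 * v W.Δ := mul_lt_mul_of_pos_right h7 (zero_lt_iff.2 h0)
    rw [one_mul] at h8
    exact absurd k3 (not_le.2 h8)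
  -- the reduction of the minimal model
  have m1 : v (W.minimal R).c₄ = 1 := by
    rw [h4, map_mul, hvW4, map_pow, k4, one_pow, mul_one]
  have m2 : v (W.minimal R).Δ < 1 := by
    rw [hd, map_mul, map_pow, k4, one_pow, one_mul]
    exact hvΔ1
  have hmult : (W.minimal R).HasMultiplicativeReduction R := ⟨m2, m1⟩
  have hgood : ¬ (W.minimal R).HasGoodReduction R := hmult.not_hasGoodReduction
  -- the unit
  obtain ⟨w, hw⟩ := exists_lift_of_le_one (A := R) (K := L) (x := u) k2
  have i4 : ((W.minimal R).integralModel R).c₄ = w ^ 4 * W₀.c₄ := by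
    apply IsFractionRing.injective R L
    rw [integralModel_c₄_eq, h4, hW4, map_mul, map_pow, hw]
  have i6 : ((W.minimal R).integralModel R).c₆ = w ^ 6 * W₀.c₆ := by
    apply IsFractionRing.injective R L
    rw [integralModel_c₆_eq, h6, hW6, map_mul, map_pow, hw]
  have hwu : IsLocalRing.residue R w ≠ 0 := by
    intro h
    rw [IsLocalRing.residue_eq_zero_iff] at h
    have h9 : v u < 1 := by
      rw [← hw, hv, HeightOneSpectrum.valuation_lt_one_iff_mem]
      exact h
    rw [k4] at h9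
    exact lt_irrefl _ h9
  have hspl : (W.minimal R).HasSplitMultiplicativeReduction R := by
    refine ⟨?_⟩
    set I := (W.minimal R).integralModel R with hI
    have hIc : IsLocalRing.residue R I.c₄ ≠ 0 := by
      rw [i4, map_mul, map_pow]
      refine mul_ne_zero (pow_ne_zero _ hwu) ?_
      exact (hc4.map (IsLocalRing.residue R)).ne_zero
    have e54 : IsLocalRing.residue R (54 : R) = 54 := map_ofNat _ 54
    have e3 : IsLocalRing.residue R (3 : R) = 3 := map_ofNat _ 3
    have h3 : -(IsLocalRing.residue R (w ^ 4 * W₀.c₄) * IsLocalRing.residue R (w ^ 6 * W₀.c₆)) =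
        (IsLocalRing.residue R w ^ 5) ^ 2 * IsLocalRing.residue R (-(W₀.c₄ * W₀.c₆)) := by
      simp only [map_mul, map_pow, map_neg]
      ring
    have h2 : IsSquare (-(IsLocalRing.residue R I.c₄ * IsLocalRing.residue R I.c₆)) := by
      rw [i4, i6, h3]
      obtain ⟨t, ht⟩ := hsq
      refine ⟨IsLocalRing.residue R w ^ 5 * t, ?_⟩
      rw [ht]
      ring
    have key := sq_split (I.map (IsLocalRing.residue R)).a₁ (I.map (IsLocalRing.residue R)).a₂
        (I.map (IsLocalRing.residue R)).b₂ (I.map (IsLocalRing.residue R)).b₄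
        (I.map (IsLocalRing.residue R)).b₆ (I.map (IsLocalRing.residue R)).c₄
        (I.map (IsLocalRing.residue R)).c₆ rfl rfl rfl (by rw [map_c₄]; exact hIc) h2R
        (by rw [map_c₄, map_c₆]; exact h2)
    have e : algebraMap R (IsLocalRing.ResidueField R) = IsLocalRing.residue R := rfl
    have f1 : IsLocalRing.residue R (I.a₁ * I.c₄) =
        (I.map (IsLocalRing.residue R)).a₁ * IsLocalRing.residue R I.c₄ := map_mul _ _ _
    have f2 : IsLocalRing.residue R (54 * I.b₆ - 3 * I.b₂ * I.b₄ + I.a₂ * I.c₄) =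
        54 * IsLocalRing.residue R I.b₆ -
          3 * IsLocalRing.residue R I.b₂ * IsLocalRing.residue R I.b₄ +
          (I.map (IsLocalRing.residue R)).a₂ * IsLocalRing.residue R I.c₄ := by
      rw [RingHom.map_add, RingHom.map_sub, RingHom.map_mul, RingHom.map_mul, RingHom.map_mul,
        RingHom.map_mul, e54, e3]
      rfl
    rw [e, Polynomial.map_sub, Polynomial.map_add, Polynomial.map_mul, Polynomial.map_mul,
      Polynomial.map_pow, Polynomial.map_X, Polynomial.map_C, Polynomial.map_C,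
      Polynomial.map_C, f1, f2]
    rw [map_c₄, map_b₂, map_b₄, map_b₆] at key
    exact key
  unfold aLoc eLoc
  rw [if_neg hgood, if_neg hgood, if_pos hspl]
  exact ⟨rfl, rfl⟩

end Pool.Agent.Run7.h289.XK
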